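import Mathlib

set_option autoImplicit false
set_option linter.unusedSectionVars false

/-!
# Bounded arithmetic formulas define primitive recursive predicates
-/

namespace Pool.Agent.Lib.MP_018f72_lc

/-- arithmetic terms; variables are counted from the beginning of the environment -/
inductive Tm : Type
  | var (i : ℕ) : Tm
  | cst (c : ℕ) : Tm
  | add (s t : Tm) : Tm
  | mul (s t : Tm) : Tm
  | div (s t : Tm) : Tm
  | mod (s t : Tm) : Tm
  | pow (s t : Tm) : Tm
  | pair (s t : Tm) : Tm
  | fst (s : Tm) : Tm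
  | snd (s : Tm) : Tm

/-- value of a term -/
def Tm.eval : Tm → List ℕ → ℕ
  | Tm.var i, env => env.getD i 0
  | Tm.cst c, _ => c
  | Tm.add s t, env => s.eval env + t.eval env
  | Tm.mul s t, env => s.eval env * t.eval env
  | Tm.div s t, env => s.eval env / t.eval env
  | Tm.mod s t, env => s.eval env % t.eval env
  | Tm.pow s t, env => s.eval env ^ t.eval env
  | Tm.pair s t, env => Nat.pair (s.eval env) (t.eval env)
  | Tm.fst s, env => (Nat.unpair (s.eval env)).1
  | Tm.snd s, env => (Nat.unpair (s.eval env)).2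

/-- bounded formulas; a quantified variable is appended to the environment -/
inductive Fm : Type
  | eq (s t : Tm) : Fm
  | lt (s t : Tm) : Fm
  | and (φ ψ : Fm) : Fm
  | or (φ ψ : Fm) : Fm
  | imp (φ ψ : Fm) : Fm
  | not (φ : Fm) : Fm
  | all (b : Tm) (φ : Fm) : Fm
  | ex (b : Tm) (φ : Fm) : Fm

/-- truth of a formula -/
def Fm.eval : Fm → List ℕ → Prop
  | Fm.eq s t, env => s.eval env = t.eval env
  | Fm.lt s t, env => s.eval env < t.eval env
  | Fm.and φ ψ, env => φ.eval env ∧ ψ.eval env
  | Fm.or φ ψ, env => φ.eval env ∨ ψ.eval env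
  | Fm.imp φ ψ, env => φ.eval env → ψ.eval env
  | Fm.not φ, env => ¬ φ.eval env
  | Fm.all b φ, env => ∀ i < b.eval env, φ.eval (env ++ [i])
  | Fm.ex b φ, env => ∃ i < b.eval env, φ.eval (env ++ [i])

lemma primrec_pow : Primrec₂ ((· ^ ·) : ℕ → ℕ → ℕ) := Primrec₂.unpaired'.1 Nat.Primrec.pow

lemma Tm.primrec (t : Tm) : Primrec t.eval := by
  induction t with
  | var i => exact (Primrec.list_getD 0).comp Primrec.id (Primrec.const i)
  | cst c => exact Primrec.const c
  | add s t hs ht => exact Primrec.nat_add.comp hs ht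
  | mul s t hs ht => exact Primrec.nat_mul.comp hs ht
  | div s t hs ht => exact Primrec.nat_div.comp hs ht
  | mod s t hs ht => exact Primrec.nat_mod.comp hs ht
  | pow s t hs ht => exact primrec_pow.comp hs ht
  | pair s t hs ht => exact Primrec₂.natPair.comp hs ht
  | fst s hs => exact Primrec.fst.comp (Primrec.unpair.comp hs)
  | snd s hs => exact Primrec.snd.comp (Primrec.unpair.comp hs)

section

variable {α : Type} [Primcodable α]

lemma PrimrecPred.imp {p q : α → Prop} (hp : PrimrecPred p) (hq : PrimrecPred q) :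
    PrimrecPred fun a => p a → q a :=
  (hp.not.or hq).of_eq fun _ => imp_iff_not_or.symm

lemma PrimrecPred.ball {f : α → ℕ} {P : ℕ → α → Prop} (hf : Primrec f)
    (hP : PrimrecPred fun x : ℕ × α => P x.1 x.2) : PrimrecPred fun a => ∀ i < f a, P i a := by
  have h : PrimrecRel P := hP
  exact (h.forall_mem_list.comp (Primrec.list_range.comp hf) Primrec.id).of_eq fun a => by
    simp

lemma PrimrecPred.bex {f : α → ℕ} {P : ℕ → α → Prop} (hf : Primrec f)
    (hP : PrimrecPred fun x : ℕ × α => P x.1 x.2) : PrimrecPred fun a => ∃ i < f a, P i a := by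
  have h : PrimrecRel P := hP
  exact (h.exists_mem_list.comp (Primrec.list_range.comp hf) Primrec.id).of_eq fun a => by
    simp

end

lemma Fm.primrec (φ : Fm) : PrimrecPred φ.eval := by
  induction φ with
  | eq s t => exact Primrec.eq.comp s.primrec t.primrec
  | lt s t => exact Primrec.nat_lt.comp s.primrec t.primrec
  | and φ ψ h1 h2 => exact h1.and h2
  | or φ ψ h1 h2 => exact h1.or h2
  | imp φ ψ h1 h2 => exact PrimrecPred.imp h1 h2
  | not φ h => exact h.not
  | all b φ h =>
    exact PrimrecPred.ball (P := fun i env => φ.eval (env ++ [i])) b.primrec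
      (h.comp (Primrec.list_concat.comp Primrec.snd Primrec.fst))
  | ex b φ h =>
    exact PrimrecPred.bex (P := fun i env => φ.eval (env ++ [i])) b.primrec
      (h.comp (Primrec.list_concat.comp Primrec.snd Primrec.fst))

/-! ### digits -/

/-- digit number `i` of `x` in base `b` -/
def dig (b x i : ℕ) : ℕ := x / b ^ i % b

lemma dig_lt {b : ℕ} (hb : 0 < b) (x i : ℕ) : dig b x i < b := Nat.mod_lt _ hb

/-- arbitrary digits can be prescribed -/
lemma exists_dig {b : ℕ} (n : ℕ) (f : ℕ → ℕ) (hf : ∀ i < n, f i < b) :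
    ∃ x < b ^ n, ∀ i < n, dig b x i = f i := by
  induction n generalizing f with
  | zero => exact ⟨0, by simp, fun i hi => absurd hi (Nat.not_lt_zero i)⟩
  | succ n ih =>
    obtain ⟨x, hx, hd⟩ := ih (fun i => f (i + 1)) (fun i hi => hf (i + 1) (by omega))
    have h0 := hf 0 (by omega)
    have hb : 0 < b := by omega
    refine ⟨f 0 + b * x, ?_, ?_⟩
    · rw [pow_succ]
      calc f 0 + b * x < b + b * x := by omega
        _ = b * (x + 1) := by ring
        _ ≤ b * b ^ n := Nat.mul_le_mul_left _ hx
        _ = b ^ n * b := by ring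
    · intro i hi
      unfold dig
      cases i with
      | zero =>
        rw [pow_zero, Nat.div_one, Nat.add_mul_mod_self_left, Nat.mod_eq_of_lt h0]
      | succ i =>
        rw [pow_succ', ← Nat.div_div_eq_div_mul, Nat.add_mul_div_left _ _ hb,
          Nat.div_eq_of_lt h0, zero_add]
        exact hd i (by omega)

/-- characteristic functions as numbers -/
lemma exists_bits (n : ℕ) (p : ℕ → Prop) : ∃ x < 2 ^ n, ∀ i < n, (dig 2 x i = 1 ↔ p i) := by
  classical
  obtain ⟨x, hx, hd⟩ := exists_dig (b := 2) n (fun i => if p i then 1 else 0)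
    (fun i _ => by split_ifs <;> norm_num)
  refine ⟨x, hx, fun i hi => ?_⟩
  rw [hd i hi]
  split_ifs with h <;> simp [h]

/-- digit term -/
def Tm.dig (b x i : Tm) : Tm := Tm.mod (Tm.div x (Tm.pow b i)) b

end Pool.Agent.Lib.MP_018f72_lc
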