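import Mathlib

set_option autoImplicit false
set_option linter.unusedSectionVars false

/-!
# Marked HNN extensions of finite groups, through their permutation representations

A datum is a finite group `V` with a subgroup `E`, an injective homomorphism `φ : E → V` and an
element `a`. It describes the subgroup generated by `a` and the stable letter `t` in the HNN
extension `⟨V, t | e t = t φ(e)⟩`. We never use normal forms: the kernel of the marking is
described through all permutation representations.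
-/

namespace Pool.Agent.Lib.MP_018f72_lc

/-- the free group on the two letters `a` and `t` -/
abbrev F2 : Type := FreeGroup (Fin 2)

/-- finite group with a partial automorphism and a marked element -/
structure Datum where
  V : Type
  [grp : Group V]
  [fin : Finite V]
  E : Subgroup V
  φ : E →* V
  φ_inj : Function.Injective φ
  a : V

attribute [instance] Datum.grp Datum.fin

/-- permutation representations of the HNN extension -/
structure Rep (δ : Datum) (Y : Type) where
  L : δ.V →* Equiv.Perm Y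
  T : Equiv.Perm Y
  comm : ∀ e : δ.E, L e * T = T * L (δ.φ e)

namespace Rep

variable {δ : Datum} {Y : Type} (r : Rep δ Y)

/-- the action of the free group -/
def ρ : F2 →* Equiv.Perm Y := FreeGroup.lift ![r.L δ.a, r.T]

@[simp] lemma ρ_zero : r.ρ (FreeGroup.of 0) = r.L δ.a := by
  unfold ρ; simp

@[simp] lemma ρ_one : r.ρ (FreeGroup.of 1) = r.T := by
  unfold ρ; simp

lemma comm' (e : δ.E) : r.T⁻¹ * r.L e * r.T = r.L (δ.φ e) := by
  rw [mul_assoc, r.comm, inv_mul_cancel_left]

end Rep

namespace Datum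

/-- the words acting trivially in all representations -/
def ker (δ : Datum) : Subgroup F2 where
  carrier := {w | ∀ (Y : Type) (r : Rep δ Y), r.ρ w = 1}
  mul_mem' := by
    intro u v hu hv Y r
    rw [map_mul, hu Y r, hv Y r, one_mul]
  one_mem' := fun Y r => map_one _
  inv_mem' := by
    intro u hu Y r
    rw [map_inv, hu Y r, inv_one]

lemma mem_ker {δ : Datum} {w : F2} : w ∈ δ.ker ↔ ∀ (Y : Type) (r : Rep δ Y), r.ρ w = 1 :=
  Iff.rfl

instance (δ : Datum) : δ.ker.Normal where
  conj_mem := by
    intro n hn g Y r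
    rw [map_mul, map_mul, hn Y r, mul_one, map_inv, mul_inv_cancel]

/-- every element of `V` is represented by a word -/
def Gen (δ : Datum) : Prop :=
  ∀ v : δ.V, ∃ w : F2, ∀ (Y : Type) (r : Rep δ Y), r.ρ w = r.L v

end Datum

/-- morphisms of data -/
structure Mor (δ δ' : Datum) where
  h : δ.V →* δ'.V
  hE : ∀ e ∈ δ.E, h e ∈ δ'.E
  hφ : ∀ e : δ.E, h (δ.φ e) = δ'.φ ⟨h e, hE e e.2⟩
  ha : h δ.a = δ'.a

namespace Mor

variable {δ δ' : Datum} (m : Mor δ δ')

/-- restriction of representations -/
def pull {Y : Type} (r : Rep δ' Y) : Rep δ Y where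
  L := r.L.comp m.h
  T := r.T
  comm e := by
    have := r.comm ⟨m.h e, m.hE e e.2⟩
    simp only [MonoidHom.comp_apply]
    rw [m.hφ e]
    exact this

lemma pull_ρ {Y : Type} (r : Rep δ' Y) (w : F2) : (m.pull r).ρ w = r.ρ w := by
  have : (m.pull r).ρ = r.ρ := by
    unfold Rep.ρ
    congr 1
    funext i
    fin_cases i
    · simp [pull, m.ha]
    · simp [pull]
  rw [this]

include m in
lemma ker_le : δ.ker ≤ δ'.ker := by
  intro w hw Y r
  rw [← m.pull_ρ r w]
  exact hw Y _

end Mor

/-- a pair of data with room between them -/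
structure Room {δ δ' : Datum} (m : Mor δ δ') : Prop where
  inj : Function.Injective m.h
  sub : ∀ x ∈ δ'.E, ∃ v, m.h v = x
  strict : ∃ x ∈ δ'.E, ∀ e ∈ δ.E, m.h e ≠ x
  ne : ∃ v : δ.V, v ∉ δ.E
  gen : Subgroup.closure (Set.range m.h ∪ Set.range δ'.φ) = ⊤

lemma Room.genr {δ δ' : Datum} {m : Mor δ δ'} (hm : Room m) (hg : δ.Gen) : δ'.Gen := by
  intro v
  have hv : v ∈ Subgroup.closure (Set.range m.h ∪ Set.range δ'.φ) := by
    rw [hm.gen]; exact Subgroup.mem_top v
  have hbase : ∀ u : δ.V, ∃ w : F2, ∀ (Y : Type) (r : Rep δ' Y), r.ρ w = r.L (m.h u) := by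
    intro u
    obtain ⟨w, hw⟩ := hg u
    refine ⟨w, fun Y r => ?_⟩
    rw [← m.pull_ρ r w, hw Y (m.pull r)]
    rfl
  induction hv using Subgroup.closure_induction with
  | mem x hx =>
    rcases hx with ⟨u, rfl⟩ | ⟨e, rfl⟩
    · exact hbase u
    · obtain ⟨u, hu⟩ := hm.sub e e.2
      obtain ⟨w, hw⟩ := hbase u
      refine ⟨(FreeGroup.of 1)⁻¹ * w * FreeGroup.of 1, fun Y r => ?_⟩
      rw [map_mul, map_mul, map_inv, r.ρ_one, hw Y r, hu, r.comm']
  | one => exact ⟨1, fun Y r => by rw [map_one, map_one]⟩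
  | mul x y _ _ hx hy =>
    obtain ⟨w, hw⟩ := hx
    obtain ⟨w', hw'⟩ := hy
    exact ⟨w * w', fun Y r => by rw [map_mul, map_mul, hw Y r, hw' Y r]⟩
  | inv x _ hx =>
    obtain ⟨w, hw⟩ := hx
    exact ⟨w⁻¹, fun Y r => by rw [map_inv, map_inv, hw Y r]⟩

end Pool.Agent.Lib.MP_018f72_lc
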