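import Pool.Agent.Lib.MP_018f72_lc.Arith
import Pool.Agent.Lib.MP_018f72_lc.Datum

set_option autoImplicit false
set_option linter.unusedSectionVars false

/-!
# Natural numbers coding data, and primitive recursiveness of the relevant relations
-/

namespace Pool.Agent.Lib.MP_018f72_lc

/-! ### the fields of a code -/

/-- size of the group -/
def csz (c : ℕ) : ℕ := (Nat.unpair c).1

/-- multiplication table -/
def ctb (c : ℕ) : ℕ := (Nat.unpair (Nat.unpair c).2).1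

/-- bits of the subgroup -/
def cE (c : ℕ) : ℕ := (Nat.unpair (Nat.unpair (Nat.unpair c).2).2).1

/-- table of the homomorphism -/
def cF (c : ℕ) : ℕ := (Nat.unpair (Nat.unpair (Nat.unpair (Nat.unpair c).2).2).2).1

/-- marked element -/
def cA (c : ℕ) : ℕ := (Nat.unpair (Nat.unpair (Nat.unpair (Nat.unpair c).2).2).2).2

/-- product of two elements of a coded group -/
def cmul (c u v : ℕ) : ℕ := dig (csz c) (ctb c) (u * csz c + v)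

/-- membership in the coded subgroup -/
def cin (c u : ℕ) : Prop := dig 2 (cE c) u = 1

/-- the coded homomorphism -/
def cphi (c u : ℕ) : ℕ := dig (csz c) (cF c) u

/-- the number codes a datum -/
def IsDatum (c : ℕ) : Prop :=
  0 < csz c ∧ cA c < csz c ∧
  (∀ u < csz c, cmul c 0 u = u) ∧
  (∀ u < csz c, ∀ v < csz c, ∀ w < csz c, cmul c (cmul c u v) w = cmul c u (cmul c v w)) ∧
  (∀ u < csz c, ∃ v < csz c, cmul c v u = 0) ∧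
  cin c 0 ∧
  (∀ u < csz c, ∀ v < csz c, cin c u → cin c v →
    cin c (cmul c u v) ∧ cphi c (cmul c u v) = cmul c (cphi c u) (cphi c v)) ∧
  (∀ u < csz c, ∀ v < csz c, cin c u → cmul c v u = 0 → cin c v) ∧
  (∀ u < csz c, ∀ v < csz c, cin c u → cin c v → cphi c u = cphi c v → u = v)

/-- `h` codes a morphism from `c` to `d` -/
def IsMor (c d h : ℕ) : Prop :=
  (∀ u < csz c, ∀ v < csz c,
    dig (csz d) h (cmul c u v) = cmul d (dig (csz d) h u) (dig (csz d) h v)) ∧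
  (∀ u < csz c, cin c u → cin d (dig (csz d) h u) ∧
    dig (csz d) h (cphi c u) = cphi d (dig (csz d) h u)) ∧
  dig (csz d) h (cA c) = cA d

/-- the coded morphism has room -/
def RoomC (c d h : ℕ) : Prop :=
  (∀ u < csz c, ∀ v < csz c, dig (csz d) h u = dig (csz d) h v → u = v) ∧
  (∀ x < csz d, cin d x → ∃ u < csz c, dig (csz d) h u = x) ∧
  (∃ x < csz d, cin d x ∧ ∀ u < csz c, cin c u → ¬ dig (csz d) h u = x) ∧
  (∃ u < csz c, ¬ cin c u) ∧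
  (∀ m < 2 ^ csz d,
    (∀ u < csz d, ∀ v < csz d, dig 2 m u = 1 → dig 2 m v = 1 → dig 2 m (cmul d u v) = 1) →
    (∀ u < csz c, dig 2 m (dig (csz d) h u) = 1) →
    (∀ x < csz d, cin d x → dig 2 m (cphi d x) = 1) →
    ∀ x < csz d, dig 2 m x = 1)

/-! ### the formulas -/

namespace Tm

/-- size term -/
def sz (c : Tm) : Tm := fst c

/-- product term -/
def cmul (c u v : Tm) : Tm := Tm.dig (sz c) (fst (snd c)) (add (mul u (sz c)) v)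

/-- homomorphism term -/
def cphi (c u : Tm) : Tm := Tm.dig (sz c) (fst (snd (snd (snd c)))) u

/-- marked element term -/
def cA (c : Tm) : Tm := snd (snd (snd (snd c)))

end Tm

/-- membership formula -/
def Fm.cin (c u : Tm) : Fm := Fm.eq (Tm.dig (Tm.cst 2) (Tm.fst (Tm.snd (Tm.snd c))) u) (Tm.cst 1)

open Tm Fm in
/-- formula for `IsDatum` -/
def fmDatum : Fm :=
  Fm.and (Fm.lt (Tm.cst 0) (Tm.sz (Tm.var 0))) <|
  Fm.and (Fm.lt (Tm.cA (Tm.var 0)) (Tm.sz (Tm.var 0))) <|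
  Fm.and (Fm.all (Tm.sz (Tm.var 0))
    (Fm.eq (Tm.cmul (Tm.var 0) (Tm.cst 0) (Tm.var 1)) (Tm.var 1))) <|
  Fm.and (Fm.all (Tm.sz (Tm.var 0)) (Fm.all (Tm.sz (Tm.var 0)) (Fm.all (Tm.sz (Tm.var 0))
    (Fm.eq (Tm.cmul (Tm.var 0) (Tm.cmul (Tm.var 0) (Tm.var 1) (Tm.var 2)) (Tm.var 3))
      (Tm.cmul (Tm.var 0) (Tm.var 1) (Tm.cmul (Tm.var 0) (Tm.var 2) (Tm.var 3))))))) <|
  Fm.and (Fm.all (Tm.sz (Tm.var 0)) (Fm.ex (Tm.sz (Tm.var 0))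
    (Fm.eq (Tm.cmul (Tm.var 0) (Tm.var 2) (Tm.var 1)) (Tm.cst 0)))) <|
  Fm.and (Fm.cin (Tm.var 0) (Tm.cst 0)) <|
  Fm.and (Fm.all (Tm.sz (Tm.var 0)) (Fm.all (Tm.sz (Tm.var 0))
    (Fm.imp (Fm.cin (Tm.var 0) (Tm.var 1)) (Fm.imp (Fm.cin (Tm.var 0) (Tm.var 2))
      (Fm.and (Fm.cin (Tm.var 0) (Tm.cmul (Tm.var 0) (Tm.var 1) (Tm.var 2)))
        (Fm.eq (Tm.cphi (Tm.var 0) (Tm.cmul (Tm.var 0) (Tm.var 1) (Tm.var 2)))
          (Tm.cmul (Tm.var 0) (Tm.cphi (Tm.var 0) (Tm.var 1))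
            (Tm.cphi (Tm.var 0) (Tm.var 2))))))))) <|
  Fm.and (Fm.all (Tm.sz (Tm.var 0)) (Fm.all (Tm.sz (Tm.var 0))
    (Fm.imp (Fm.cin (Tm.var 0) (Tm.var 1))
      (Fm.imp (Fm.eq (Tm.cmul (Tm.var 0) (Tm.var 2) (Tm.var 1)) (Tm.cst 0))
        (Fm.cin (Tm.var 0) (Tm.var 2)))))) <|
  Fm.all (Tm.sz (Tm.var 0)) (Fm.all (Tm.sz (Tm.var 0))
    (Fm.imp (Fm.cin (Tm.var 0) (Tm.var 1)) (Fm.imp (Fm.cin (Tm.var 0) (Tm.var 2))
      (Fm.imp (Fm.eq (Tm.cphi (Tm.var 0) (Tm.var 1)) (Tm.cphi (Tm.var 0) (Tm.var 2)))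
        (Fm.eq (Tm.var 1) (Tm.var 2))))))

lemma fmDatum_eval (c : ℕ) : fmDatum.eval [c] ↔ IsDatum c := Iff.rfl

/-- formula for `IsMor`, variables `c d h` -/
def fmMor : Fm :=
  Fm.and (Fm.all (Tm.sz (Tm.var 0)) (Fm.all (Tm.sz (Tm.var 0))
    (Fm.eq (Tm.dig (Tm.sz (Tm.var 1)) (Tm.var 2) (Tm.cmul (Tm.var 0) (Tm.var 3) (Tm.var 4)))
      (Tm.cmul (Tm.var 1) (Tm.dig (Tm.sz (Tm.var 1)) (Tm.var 2) (Tm.var 3))
        (Tm.dig (Tm.sz (Tm.var 1)) (Tm.var 2) (Tm.var 4)))))) <|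
  Fm.and (Fm.all (Tm.sz (Tm.var 0)) (Fm.imp (Fm.cin (Tm.var 0) (Tm.var 3))
    (Fm.and (Fm.cin (Tm.var 1) (Tm.dig (Tm.sz (Tm.var 1)) (Tm.var 2) (Tm.var 3)))
      (Fm.eq (Tm.dig (Tm.sz (Tm.var 1)) (Tm.var 2) (Tm.cphi (Tm.var 0) (Tm.var 3)))
        (Tm.cphi (Tm.var 1) (Tm.dig (Tm.sz (Tm.var 1)) (Tm.var 2) (Tm.var 3))))))) <|
  Fm.eq (Tm.dig (Tm.sz (Tm.var 1)) (Tm.var 2) (Tm.cA (Tm.var 0))) (Tm.cA (Tm.var 1))

lemma fmMor_eval (c d h : ℕ) : fmMor.eval [c, d, h] ↔ IsMor c d h := Iff.rfl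

/-- formula for `RoomC`, variables `c d h` -/
def fmRoom : Fm :=
  Fm.and (Fm.all (Tm.sz (Tm.var 0)) (Fm.all (Tm.sz (Tm.var 0))
    (Fm.imp (Fm.eq (Tm.dig (Tm.sz (Tm.var 1)) (Tm.var 2) (Tm.var 3))
        (Tm.dig (Tm.sz (Tm.var 1)) (Tm.var 2) (Tm.var 4)))
      (Fm.eq (Tm.var 3) (Tm.var 4))))) <|
  Fm.and (Fm.all (Tm.sz (Tm.var 1)) (Fm.imp (Fm.cin (Tm.var 1) (Tm.var 3))
    (Fm.ex (Tm.sz (Tm.var 0))
      (Fm.eq (Tm.dig (Tm.sz (Tm.var 1)) (Tm.var 2) (Tm.var 4)) (Tm.var 3))))) <|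
  Fm.and (Fm.ex (Tm.sz (Tm.var 1)) (Fm.and (Fm.cin (Tm.var 1) (Tm.var 3))
    (Fm.all (Tm.sz (Tm.var 0)) (Fm.imp (Fm.cin (Tm.var 0) (Tm.var 4))
      (Fm.not (Fm.eq (Tm.dig (Tm.sz (Tm.var 1)) (Tm.var 2) (Tm.var 4)) (Tm.var 3))))))) <|
  Fm.and (Fm.ex (Tm.sz (Tm.var 0)) (Fm.not (Fm.cin (Tm.var 0) (Tm.var 3)))) <|
  Fm.all (Tm.pow (Tm.cst 2) (Tm.sz (Tm.var 1))) <|
    Fm.imp (Fm.all (Tm.sz (Tm.var 1)) (Fm.all (Tm.sz (Tm.var 1))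
      (Fm.imp (Fm.eq (Tm.dig (Tm.cst 2) (Tm.var 3) (Tm.var 4)) (Tm.cst 1))
        (Fm.imp (Fm.eq (Tm.dig (Tm.cst 2) (Tm.var 3) (Tm.var 5)) (Tm.cst 1))
          (Fm.eq (Tm.dig (Tm.cst 2) (Tm.var 3) (Tm.cmul (Tm.var 1) (Tm.var 4) (Tm.var 5)))
            (Tm.cst 1)))))) <|
    Fm.imp (Fm.all (Tm.sz (Tm.var 0))
      (Fm.eq (Tm.dig (Tm.cst 2) (Tm.var 3) (Tm.dig (Tm.sz (Tm.var 1)) (Tm.var 2) (Tm.var 4)))
        (Tm.cst 1))) <|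
    Fm.imp (Fm.all (Tm.sz (Tm.var 1)) (Fm.imp (Fm.cin (Tm.var 1) (Tm.var 4))
      (Fm.eq (Tm.dig (Tm.cst 2) (Tm.var 3) (Tm.cphi (Tm.var 1) (Tm.var 4))) (Tm.cst 1)))) <|
    Fm.all (Tm.sz (Tm.var 1)) (Fm.eq (Tm.dig (Tm.cst 2) (Tm.var 3) (Tm.var 4)) (Tm.cst 1))

lemma fmRoom_eval (c d h : ℕ) : fmRoom.eval [c, d, h] ↔ RoomC c d h := Iff.rfl

section

variable {α : Type} [Primcodable α]

lemma primrec_list1 {f : α → ℕ} (hf : Primrec f) : Primrec fun a => [f a] :=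
  Primrec.list_cons.comp hf (Primrec.const [])

lemma primrec_list3 {f g h : α → ℕ} (hf : Primrec f) (hg : Primrec g) (hh : Primrec h) :
    Primrec fun a => [f a, g a, h a] :=
  Primrec.list_cons.comp hf (Primrec.list_cons.comp hg (primrec_list1 hh))

lemma primrec_list4 {f g h k : α → ℕ} (hf : Primrec f) (hg : Primrec g) (hh : Primrec h)
    (hk : Primrec k) : Primrec fun a => [f a, g a, h a, k a] :=
  Primrec.list_cons.comp hf (primrec_list3 hg hh hk)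

lemma primrec_isDatum {f : α → ℕ} (hf : Primrec f) : PrimrecPred fun a => IsDatum (f a) :=
  (fmDatum.primrec.comp (primrec_list1 hf)).of_eq fun _ => Iff.rfl

lemma primrec_isMor {f g h : α → ℕ} (hf : Primrec f) (hg : Primrec g) (hh : Primrec h) :
    PrimrecPred fun a => IsMor (f a) (g a) (h a) :=
  (fmMor.primrec.comp (primrec_list3 hf hg hh)).of_eq fun _ => Iff.rfl

lemma primrec_roomC {f g h : α → ℕ} (hf : Primrec f) (hg : Primrec g) (hh : Primrec h) :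
    PrimrecPred fun a => RoomC (f a) (g a) (h a) :=
  (fmRoom.primrec.comp (primrec_list3 hf hg hh)).of_eq fun _ => Iff.rfl

end

end Pool.Agent.Lib.MP_018f72_lc
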