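import Pool.Agent.Lib.MP_018f72_lc.Code

set_option autoImplicit false
set_option linter.unusedSectionVars false

/-!
# Codes and data
-/

namespace Pool.Agent.Lib.MP_018f72_lc

/-- the number `c` codes the datum `δ`, elements of `V` being named by `ε` -/
structure Codes (c : ℕ) (δ : Datum) (ε : δ.V → ℕ) : Prop where
  inj : Function.Injective ε
  rng : ∀ u, u < csz c ↔ ∃ v, ε v = u
  one : ε 1 = 0
  mul : ∀ v w, cmul c (ε v) (ε w) = ε (v * w)
  mem : ∀ v, cin c (ε v) ↔ v ∈ δ.E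
  phi : ∀ e : δ.E, cphi c (ε e) = ε (δ.φ e)
  a : cA c = ε δ.a

lemma Codes.lt {c : ℕ} {δ : Datum} {ε : δ.V → ℕ} (h : Codes c δ ε) (v : δ.V) : ε v < csz c :=
  (h.rng _).2 ⟨v, rfl⟩

lemma Codes.pos {c : ℕ} {δ : Datum} {ε : δ.V → ℕ} (h : Codes c δ ε) : 0 < csz c :=
  (h.rng 0).2 ⟨1, h.one⟩

/-- every datum has a code -/
lemma exists_code (δ : Datum) : ∃ (c : ℕ) (ε : δ.V → ℕ), Codes c δ ε := by
  classical
  set n := Nat.card δ.V with hn
  have hn0 : 0 < n := Nat.card_pos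
  let e : δ.V ≃ Fin n := (Finite.equivFin δ.V).trans
    (Equiv.swap (Finite.equivFin δ.V 1) ⟨0, hn0⟩)
  let ε : δ.V → ℕ := fun v => (e v : ℕ)
  have hinj : Function.Injective ε := fun u v h => e.injective (Fin.ext h)
  have hlt : ∀ v, ε v < n := fun v => (e v).2
  have hone : ε 1 = 0 := by
    simp [ε, e]
  let g : ℕ → δ.V := Function.invFun ε
  have hg : ∀ v, g (ε v) = v := fun v => Function.leftInverse_invFun hinj v
  have hsurj : ∀ u < n, ∃ v, ε v = u := by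
    intro u hu
    exact ⟨e.symm ⟨u, hu⟩, by simp [ε]⟩
  obtain ⟨T, -, hT⟩ := exists_dig (b := n) (n * n) (fun i => ε (g (i / n) * g (i % n)))
    (fun i _ => hlt _)
  obtain ⟨E, -, hE⟩ := exists_bits n (fun i => g i ∈ δ.E)
  obtain ⟨F, -, hF⟩ := exists_dig (b := n) n
    (fun i => if h : g i ∈ δ.E then ε (δ.φ ⟨g i, h⟩) else 0) (fun i _ => by
      split_ifs
      · exact hlt _
      · exact hn0)
  refine ⟨Nat.pair n (Nat.pair T (Nat.pair E (Nat.pair F (ε δ.a)))), ε, hinj, ?_, hone, ?_, ?_,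
    ?_, ?_⟩
  · intro u
    simp only [csz, Nat.unpair_pair]
    exact ⟨hsurj u, by rintro ⟨v, rfl⟩; exact hlt v⟩
  · intro v w
    simp only [cmul, csz, ctb, Nat.unpair_pair]
    have h1 : ε v * n + ε w < n * n := by
      have := hlt v
      have := hlt w
      nlinarith
    rw [hT _ h1]
    have h2 : (ε v * n + ε w) / n = ε v := by
      rw [mul_comm, Nat.mul_add_div hn0, Nat.div_eq_of_lt (hlt w), add_zero]
    have h3 : (ε v * n + ε w) % n = ε w := by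
      rw [mul_comm, Nat.mul_add_mod, Nat.mod_eq_of_lt (hlt w)]
    rw [h2, h3, hg, hg]
  · intro v
    simp only [cin, cE, Nat.unpair_pair]
    rw [hE _ (hlt v), hg]
  · intro e
    simp only [cphi, csz, cF, Nat.unpair_pair]
    rw [hF _ (hlt _)]
    have h1 : g (ε e) ∈ δ.E := by rw [hg]; exact e.2
    rw [dif_pos h1]
    congr 2
    exact Subtype.ext (hg e)
  · simp only [cA, Nat.unpair_pair]

/-- every formal code is the code of a datum -/
lemma IsDatum.exists_dat {c : ℕ} (h : IsDatum c) : ∃ (δ : Datum) (ε : δ.V → ℕ), Codes c δ ε := by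
  classical
  obtain ⟨h0, ha, h1, h2, h3, hE0, hE1, hE2, hφ⟩ := h
  choose! iv hiv hiv' using h3
  let G : Type := {u : ℕ // u < csz c}
  let i1 : Mul G := ⟨fun u v => ⟨cmul c u.1 v.1, dig_lt h0 _ _⟩⟩
  let i2 : One G := ⟨⟨0, h0⟩⟩
  let i3 : Inv G := ⟨fun u => ⟨iv u.1, hiv u.1 u.2⟩⟩
  let i4 : Group G := Group.ofLeftAxioms
    (fun u v w => Subtype.ext (h2 u.1 u.2 v.1 v.2 w.1 w.2))
    (fun u => Subtype.ext (h1 u.1 u.2))
    (fun u => Subtype.ext (hiv' u.1 u.2))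
  have hfin : Finite G := inferInstance
  have hval : ∀ u v : G, (u * v).1 = cmul c u.1 v.1 := fun _ _ => rfl
  let E : Subgroup G :=
    { carrier := {u | cin c u.1}
      mul_mem' := fun {u v} hu hv => (hE1 u.1 u.2 v.1 v.2 hu hv).1
      one_mem' := hE0
      inv_mem' := fun {u} hu => hE2 u.1 u.2 _ (hiv u.1 u.2) hu (hiv' u.1 u.2) }
  let φ : E →* G := MonoidHom.mk' (fun u => ⟨cphi c u.1.1, dig_lt h0 _ _⟩)
    (fun u v => Subtype.ext (hE1 u.1.1 u.1.2 v.1.1 v.1.2 u.2 v.2).2)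
  have hφ' : Function.Injective φ := by
    intro u v huv
    have := congrArg Subtype.val huv
    exact Subtype.ext (Subtype.ext (hφ u.1.1 u.1.2 v.1.1 v.1.2 u.2 v.2 this))
  refine ⟨@Datum.mk G i4 hfin E φ hφ' ⟨cA c, ha⟩, Subtype.val, Subtype.val_injective, ?_, rfl,
    fun _ _ => rfl, fun _ => Iff.rfl, fun _ => rfl, rfl⟩
  intro u
  exact ⟨fun hu => ⟨⟨u, hu⟩, rfl⟩, by rintro ⟨v, rfl⟩; exact v.2⟩

lemma Codes.isDatum {c : ℕ} {δ : Datum} {ε : δ.V → ℕ} (h : Codes c δ ε) : IsDatum c := by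
  refine ⟨h.pos, ?_, ?_, ?_, ?_, ?_, ?_, ?_, ?_⟩
  · rw [h.a]; exact h.lt _
  · intro u hu
    obtain ⟨v, rfl⟩ := (h.rng u).1 hu
    rw [← h.one, h.mul, one_mul]
  · intro u hu v hv w hw
    obtain ⟨u, rfl⟩ := (h.rng u).1 hu
    obtain ⟨v, rfl⟩ := (h.rng v).1 hv
    obtain ⟨w, rfl⟩ := (h.rng w).1 hw
    rw [h.mul, h.mul, h.mul, h.mul, mul_assoc]
  · intro u hu
    obtain ⟨u, rfl⟩ := (h.rng u).1 hu
    exact ⟨ε u⁻¹, h.lt _, by rw [h.mul, inv_mul_cancel, h.one]⟩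
  · rw [← h.one, h.mem]; exact one_mem _
  · intro u hu v hv h1 h2
    obtain ⟨u, rfl⟩ := (h.rng u).1 hu
    obtain ⟨v, rfl⟩ := (h.rng v).1 hv
    rw [h.mem] at h1 h2
    rw [h.mul, h.mem]
    refine ⟨mul_mem h1 h2, ?_⟩
    have e1 := h.phi ⟨u, h1⟩
    have e2 := h.phi ⟨v, h2⟩
    have e3 := h.phi (⟨u, h1⟩ * ⟨v, h2⟩)
    simp only [Subgroup.coe_mul] at e1 e2 e3
    rw [e1, e2, e3, h.mul, map_mul]
  · intro u hu v hv h1 h2
    obtain ⟨u, rfl⟩ := (h.rng u).1 hu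
    obtain ⟨v, rfl⟩ := (h.rng v).1 hv
    rw [h.mul, ← h.one] at h2
    have h3 := h.inj h2
    rw [h.mem] at h1 ⊢
    rw [eq_inv_of_mul_eq_one_left h3]
    exact inv_mem h1
  · intro u hu v hv h1 h2 h3
    obtain ⟨u, rfl⟩ := (h.rng u).1 hu
    obtain ⟨v, rfl⟩ := (h.rng v).1 hv
    rw [h.mem] at h1 h2
    have e1 := h.phi ⟨u, h1⟩
    have e2 := h.phi ⟨v, h2⟩
    simp only at e1 e2
    rw [e1, e2] at h3
    have h4 := δ.φ_inj (h.inj h3)
    exact congrArg ε (congrArg Subtype.val h4)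

section

variable {c c' : ℕ} {δ δ' : Datum} {ε : δ.V → ℕ} {ε' : δ'.V → ℕ}

/-- the number `h` codes the morphism `m` -/
def CMor (c' : ℕ) (ε : δ.V → ℕ) (ε' : δ'.V → ℕ) (m : Mor δ δ') (h : ℕ) : Prop :=
  ∀ v, dig (csz c') h (ε v) = ε' (m.h v)

lemma exists_cMor (hc : Codes c δ ε) (hc' : Codes c' δ' ε') (m : Mor δ δ') :
    ∃ h, CMor c' ε ε' m h := by
  classical
  obtain ⟨h, -, hh⟩ := exists_dig (b := csz c') (csz c)
    (fun i => ε' (m.h (Function.invFun ε i))) (fun i _ => hc'.lt _)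
  refine ⟨h, fun v => ?_⟩
  rw [hh _ (hc.lt v), Function.leftInverse_invFun hc.inj v]

lemma CMor.isMor (hc : Codes c δ ε) (hc' : Codes c' δ' ε') {m : Mor δ δ'} {h : ℕ}
    (hm : CMor c' ε ε' m h) : IsMor c c' h := by
  refine ⟨?_, ?_, ?_⟩
  · intro u hu v hv
    obtain ⟨u, rfl⟩ := (hc.rng u).1 hu
    obtain ⟨v, rfl⟩ := (hc.rng v).1 hv
    rw [hc.mul, hm, hm, hm, map_mul, hc'.mul]
  · intro u hu h1
    obtain ⟨u, rfl⟩ := (hc.rng u).1 hu
    rw [hc.mem] at h1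
    rw [hm, hc'.mem]
    refine ⟨m.hE _ h1, ?_⟩
    have e1 := hc.phi ⟨u, h1⟩
    have e2 := hc'.phi ⟨m.h u, m.hE _ h1⟩
    simp only at e1 e2
    rw [e1, hm, e2]
    exact congrArg ε' (m.hφ ⟨u, h1⟩)
  · rw [hc.a, hm, hc'.a, m.ha]

lemma IsMor.exists_mor (hc : Codes c δ ε) (hc' : Codes c' δ' ε') {h : ℕ} (hm : IsMor c c' h) :
    ∃ m : Mor δ δ', CMor c' ε ε' m h := by
  classical
  obtain ⟨h1, h2, h3⟩ := hm
  have hf : ∀ v : δ.V, ∃ w : δ'.V, ε' w = dig (csz c') h (ε v) := by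
    intro v
    exact (hc'.rng _).1 (dig_lt hc'.pos _ _)
  choose f hf using hf
  have hmul : ∀ u v, f (u * v) = f u * f v := by
    intro u v
    apply hc'.inj
    rw [hf, ← hc.mul, h1 _ (hc.lt u) _ (hc.lt v), ← hf, ← hf, hc'.mul]
  have hE : ∀ e ∈ δ.E, f e ∈ δ'.E := by
    intro e he
    rw [← hc'.mem, hf]
    exact (h2 _ (hc.lt e) ((hc.mem e).2 he)).1
  refine ⟨⟨MonoidHom.mk' f hmul, hE, ?_, ?_⟩, fun v => (hf v).symm⟩
  · intro e
    apply hc'.inj
    have e1 := hc'.phi ⟨f e, hE _ e.2⟩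
    have e2 := (h2 _ (hc.lt e) ((hc.mem e).2 e.2)).2
    rw [hc.phi e] at e2
    simp only [MonoidHom.mk'_apply] at e1 ⊢
    rw [hf, ← e1, e2, hf]
  · apply hc'.inj
    simp only [MonoidHom.mk'_apply]
    rw [hf, ← hc.a, h3, hc'.a]

lemma roomC_iff (hc : Codes c δ ε) (hc' : Codes c' δ' ε') {h : ℕ} {m : Mor δ δ'}
    (hm : CMor c' ε ε' m h) : RoomC c c' h ↔ Room m := by
  classical
  constructor
  · rintro ⟨h1, h2, h3, h4, h5⟩
    refine ⟨?_, ?_, ?_, ?_, ?_⟩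
    · intro u v huv
      apply hc.inj
      apply h1 _ (hc.lt u) _ (hc.lt v)
      rw [hm, hm, huv]
    · intro x hx
      obtain ⟨u, hu, hux⟩ := h2 _ (hc'.lt x) ((hc'.mem x).2 hx)
      obtain ⟨v, rfl⟩ := (hc.rng u).1 hu
      rw [hm] at hux
      exact ⟨v, hc'.inj hux⟩
    · obtain ⟨x, hx, hxE, hx2⟩ := h3
      obtain ⟨x, rfl⟩ := (hc'.rng x).1 hx
      refine ⟨x, (hc'.mem x).1 hxE, ?_⟩
      intro e he hex
      apply hx2 _ (hc.lt e) ((hc.mem e).2 he)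
      rw [hm, hex]
    · obtain ⟨u, hu, huE⟩ := h4
      obtain ⟨v, rfl⟩ := (hc.rng u).1 hu
      exact ⟨v, fun hv => huE ((hc.mem v).2 hv)⟩
    · set S := Subgroup.closure (Set.range m.h ∪ Set.range δ'.φ) with hS
      obtain ⟨b, hb, hbit⟩ := exists_bits (csz c') (fun i => Function.invFun ε' i ∈ S)
      have hbit' : ∀ v, dig 2 b (ε' v) = 1 ↔ v ∈ S := by
        intro v
        rw [hbit _ (hc'.lt v), Function.leftInverse_invFun hc'.inj v]
      rw [eq_top_iff]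
      intro v _
      rw [← hbit']
      apply h5 b hb ?_ ?_ ?_ _ (hc'.lt v)
      · intro x hx y hy h1 h2
        obtain ⟨x, rfl⟩ := (hc'.rng x).1 hx
        obtain ⟨y, rfl⟩ := (hc'.rng y).1 hy
        rw [hbit'] at h1 h2
        rw [hc'.mul, hbit']
        exact mul_mem h1 h2
      · intro u hu
        obtain ⟨u, rfl⟩ := (hc.rng u).1 hu
        rw [hm, hbit']
        exact Subgroup.subset_closure (Or.inl ⟨u, rfl⟩)
      · intro x hx h1
        obtain ⟨x, rfl⟩ := (hc'.rng x).1 hx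
        rw [hc'.mem] at h1
        have e1 := hc'.phi ⟨x, h1⟩
        simp only at e1
        rw [e1, hbit']
        exact Subgroup.subset_closure (Or.inr ⟨_, rfl⟩)
  · intro hr
    refine ⟨?_, ?_, ?_, ?_, ?_⟩
    · intro u hu v hv h1
      obtain ⟨u, rfl⟩ := (hc.rng u).1 hu
      obtain ⟨v, rfl⟩ := (hc.rng v).1 hv
      rw [hm, hm] at h1
      rw [hr.inj (hc'.inj h1)]
    · intro x hx h1
      obtain ⟨x, rfl⟩ := (hc'.rng x).1 hx
      obtain ⟨v, hv⟩ := hr.sub x ((hc'.mem x).1 h1)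
      exact ⟨ε v, hc.lt v, by rw [hm, hv]⟩
    · obtain ⟨x, hx, hx2⟩ := hr.strict
      refine ⟨ε' x, hc'.lt x, (hc'.mem x).2 hx, ?_⟩
      intro u hu h1 h2
      obtain ⟨u, rfl⟩ := (hc.rng u).1 hu
      rw [hm] at h2
      exact hx2 u ((hc.mem u).1 h1) (hc'.inj h2)
    · obtain ⟨v, hv⟩ := hr.ne
      exact ⟨ε v, hc.lt v, fun h1 => hv ((hc.mem v).1 h1)⟩
    · intro b _ h1 h2 h3 x hx
      obtain ⟨x, rfl⟩ := (hc'.rng x).1 hx
      clear hx
      have hx : x ∈ Subgroup.closure (Set.range m.h ∪ Set.range δ'.φ) := by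
        rw [hr.gen]; exact Subgroup.mem_top x
      have hmulb : ∀ u v : δ'.V, dig 2 b (ε' u) = 1 → dig 2 b (ε' v) = 1 →
          dig 2 b (ε' (u * v)) = 1 := by
        intro u v hu hv
        rw [← hc'.mul]
        exact h1 _ (hc'.lt u) _ (hc'.lt v) hu hv
      have honeb : dig 2 b (ε' 1) = 1 := by
        have := h2 _ (hc.lt 1)
        rwa [hm, map_one] at this
      have hpow : ∀ (k : ℕ) (u : δ'.V), dig 2 b (ε' u) = 1 → dig 2 b (ε' (u ^ k)) = 1 := by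
        intro k u hu
        induction k with
        | zero => rw [pow_zero]; exact honeb
        | succ k ih => rw [pow_succ]; exact hmulb _ _ ih hu
      induction hx using Subgroup.closure_induction with
      | mem x hx =>
        rcases hx with ⟨u, rfl⟩ | ⟨e, rfl⟩
        · have := h2 _ (hc.lt u)
          rwa [hm] at this
        · have := h3 _ (hc'.lt e) ((hc'.mem e).2 e.2)
          rwa [hc'.phi] at this
      | one => exact honeb
      | mul x y _ _ hx hy => exact hmulb x y hx hy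
      | inv x _ hx =>
        have h5 : x⁻¹ = x ^ (Nat.card δ'.V - 1) := by
          rw [inv_eq_iff_mul_eq_one, ← pow_succ', Nat.sub_add_cancel Nat.card_pos,
            pow_card_eq_one']
        rw [h5]
        exact hpow _ _ hx

end

end Pool.Agent.Lib.MP_018f72_lc
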