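import Pool.Agent.Lib.MP_018f72_lc.Match

set_option autoImplicit false
set_option linter.unusedSectionVars false

/-!
# Configurations on the marked group and local patterns
-/

namespace Pool.Agent.Lib.MP_018f72_lc

/-- a labelling of the free group, invariant under `N`, satisfying the local rules -/
structure IsConf {Λ : Type} (N : Subgroup F2) (OK : Λ → Prop) (RA RT : Λ → Λ → Prop)
    (c : F2 → Λ) : Prop where
  inv : ∀ w, ∀ n ∈ N, c (w * n) = c w
  ok : ∀ w, OK (c w)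
  ra : ∀ w, RA (c w) (c (w * FreeGroup.of 0))
  rt : ∀ w, RT (c w) (c (w * FreeGroup.of 1))

section

variable {δ : Datum} {Λ : Type} {OK : Λ → Prop} {RA RT : Λ → Λ → Prop}

lemma conf_of_labRep (R : LabRep δ OK RA RT) : ∃ c, IsConf δ.ker OK RA RT c := by
  refine ⟨fun w => R.lab ((R.r.ρ w)⁻¹ R.y0), ⟨?_, ?_, ?_, ?_⟩⟩
  · intro w n hn
    rw [map_mul, hn R.Y R.r, mul_one]
  · intro w
    exact R.ok _
  · intro w
    have h := R.ra ((R.r.ρ w)⁻¹ R.y0)
    have h2 : (R.r.ρ (w * FreeGroup.of 0))⁻¹ R.y0 = (R.r.L δ.a)⁻¹ ((R.r.ρ w)⁻¹ R.y0) := by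
      rw [map_mul, R.r.ρ_zero, mul_inv_rev, Equiv.Perm.mul_apply]
    rw [h2]
    exact h
  · intro w
    have h := R.rt ((R.r.ρ w)⁻¹ R.y0)
    have h2 : (R.r.ρ (w * FreeGroup.of 1))⁻¹ R.y0 = (R.r.T)⁻¹ ((R.r.ρ w)⁻¹ R.y0) := by
      rw [map_mul, R.r.ρ_one, mul_inv_rev, Equiv.Perm.mul_apply]
    rw [h2]
    exact h

lemma IsConf.congr {N : Subgroup F2} {c : F2 → Λ} (hc : IsConf N OK RA RT c) {u v : F2}
    (h : u⁻¹ * v ∈ N) : c v = c u := by
  have := hc.inv u _ h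
  rwa [mul_inv_cancel_left] at this

lemma compat_of_conf (hg : δ.Gen) {c : F2 → Λ} (hc : IsConf δ.ker OK RA RT c) :
    ∃ Θ : Set (δ.V → Λ), Compat δ OK RA RT Θ := by
  choose ω hω using hg
  have key : ∀ u v w : F2, (∀ (Y : Type) (r : Rep δ Y), r.ρ u = r.ρ v) →
      c (w * u) = c (w * v) := by
    intro u v w h
    apply hc.congr
    intro Y r
    rw [map_mul, map_inv, map_mul, map_mul, h Y r, inv_mul_cancel]
  refine ⟨{p | ∃ w, p = fun v => c (w * ω v)}, ⟨⟨_, 1, rfl⟩, ?_, ?_, ?_⟩⟩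
  · rintro p ⟨w, rfl⟩ v
    refine ⟨hc.ok _, ?_⟩
    have h1 := hc.ra (w * ω v)
    have h2 : c (w * ω (v * δ.a)) = c (w * ω v * FreeGroup.of 0) := by
      rw [mul_assoc]
      apply key
      intro Y r
      rw [hω, map_mul r.L, map_mul r.ρ, hω, r.ρ_zero]
    rw [← h2] at h1
    exact h1
  · rintro p ⟨w, rfl⟩ v
    refine ⟨_, ⟨w * ω v * FreeGroup.of 1, rfl⟩, 1, fun e => ?_⟩
    have h1 := hc.rt (w * ω (v * e))
    have h2 : c (w * ω v * FreeGroup.of 1 * ω (1 * δ.φ e)) =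
        c (w * ω (v * e) * FreeGroup.of 1) := by
      rw [mul_assoc, mul_assoc, mul_assoc w]
      apply key
      intro Y r
      rw [map_mul, map_mul, map_mul, hω, hω, hω, r.ρ_one, one_mul, map_mul, mul_assoc, r.comm]
    rw [← h2] at h1
    exact h1
  · rintro p ⟨w, rfl⟩ v
    refine ⟨_, ⟨w * ω v * (FreeGroup.of 1)⁻¹, rfl⟩, 1, fun e => ?_⟩
    have h1 := hc.rt (w * ω v * (FreeGroup.of 1)⁻¹ * ω (1 * e))
    have h2 : c (w * ω (v * δ.φ e)) =
        c (w * ω v * (FreeGroup.of 1)⁻¹ * ω (1 * e) * FreeGroup.of 1) := by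
      rw [mul_assoc, mul_assoc, mul_assoc]
      apply key
      intro Y r
      rw [map_mul, map_mul, map_mul, map_inv, hω, hω, hω, r.ρ_one, one_mul, map_mul, r.comm,
        inv_mul_cancel_left]
    rw [← h2] at h1
    exact h1

lemma Compat.finite {Θ : Set (δ.V → Λ)} (h : Compat δ OK RA RT Θ) (hfin : {l | OK l}.Finite) :
    Θ.Finite := by
  refine Set.Finite.subset (Set.Finite.pi' fun _ : δ.V => hfin) ?_
  intro p hp v
  exact (h.ok p hp v).1

/-- local patterns decide the existence of configurations -/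
theorem compat_iff (hg : δ.Gen) (hfin : {l | OK l}.Finite) :
    (∃ Θ : Set (δ.V → Λ), Compat δ OK RA RT Θ) ↔ ∃ c, IsConf δ.ker OK RA RT c := by
  constructor
  · rintro ⟨Θ, hΘ⟩
    obtain ⟨R⟩ := exists_labRep hΘ (hΘ.finite hfin)
    exact conf_of_labRep R
  · rintro ⟨c, hc⟩
    exact compat_of_conf hg hc

end

end Pool.Agent.Lib.MP_018f72_lc
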