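import Pool.Agent.Lib.MP_018f72_lc.Datum

set_option autoImplicit false
set_option linter.unusedSectionVars false

/-!
# Labelled free representations from local patterns
-/

namespace Pool.Agent.Lib.MP_018f72_lc

/-- infinite matching: two finite types of vertex kinds, each with countably many copies -/
lemma exists_match {P Q : Type} [Finite P] [Finite Q] (R : P → Q → Prop)
    (h1 : ∀ p, ∃ q, R p q) (h2 : ∀ q, ∃ p, R p q) :
    ∃ β : P × ℕ ≃ Q × ℕ, ∀ x, R x.1 (β x).1 := by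
  classical
  let M := {m : P × Q // R m.1 m.2}
  have f1 : ∀ p, Nonempty ({q // R p q} × ℕ ≃ ℕ) := by
    intro p
    obtain ⟨q, hq⟩ := h1 p
    have : Nonempty {q // R p q} := ⟨⟨q, hq⟩⟩
    have : Countable ({q // R p q} × ℕ) := inferInstance
    have : Infinite ({q // R p q} × ℕ) := inferInstance
    obtain ⟨e⟩ := nonempty_denumerable ({q // R p q} × ℕ)
    exact ⟨Denumerable.eqv _⟩
  have f2 : ∀ q, Nonempty ({p // R p q} × ℕ ≃ ℕ) := by
    intro q
    obtain ⟨p, hp⟩ := h2 q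
    have : Nonempty {p // R p q} := ⟨⟨p, hp⟩⟩
    have : Countable ({p // R p q} × ℕ) := inferInstance
    have : Infinite ({p // R p q} × ℕ) := inferInstance
    obtain ⟨e⟩ := nonempty_denumerable ({p // R p q} × ℕ)
    exact ⟨Denumerable.eqv _⟩
  let g1 := fun p => (f1 p).some
  let g2 := fun q => (f2 q).some
  -- M × ℕ ≃ P × ℕ
  let e1 : M × ℕ ≃ P × ℕ :=
    { toFun := fun x => (x.1.1.1, g1 x.1.1.1 (⟨x.1.1.2, x.1.2⟩, x.2))
      invFun := fun y => (⟨(y.1, ((g1 y.1).symm y.2).1.1), ((g1 y.1).symm y.2).1.2⟩,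
        ((g1 y.1).symm y.2).2)
      left_inv := by
        rintro ⟨⟨⟨p, q⟩, h⟩, k⟩
        simp
      right_inv := by
        rintro ⟨p, k⟩
        simp }
  let e2 : M × ℕ ≃ Q × ℕ :=
    { toFun := fun x => (x.1.1.2, g2 x.1.1.2 (⟨x.1.1.1, x.1.2⟩, x.2))
      invFun := fun y => (⟨(((g2 y.1).symm y.2).1.1, y.1), ((g2 y.1).symm y.2).1.2⟩,
        ((g2 y.1).symm y.2).2)
      left_inv := by
        rintro ⟨⟨⟨p, q⟩, h⟩, k⟩
        simp
      right_inv := by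
        rintro ⟨p, k⟩
        simp }
  refine ⟨e1.symm.trans e2, ?_⟩
  intro x
  exact (e1.symm x).1.2

/-- local patterns on a datum: `Θ` is a set of labellings of `V`, `RA` and `RT` are the relations
along the two letters -/
structure Compat (δ : Datum) {Λ : Type} (OK : Λ → Prop) (RA RT : Λ → Λ → Prop)
    (Θ : Set (δ.V → Λ)) : Prop where
  ne : Θ.Nonempty
  ok : ∀ p ∈ Θ, ∀ v, OK (p v) ∧ RA (p v) (p (v * δ.a))
  fwd : ∀ p ∈ Θ, ∀ v, ∃ q ∈ Θ, ∃ v' : δ.V, ∀ e : δ.E, RT (p (v * e)) (q (v' * δ.φ e))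
  bwd : ∀ q ∈ Θ, ∀ v', ∃ p ∈ Θ, ∃ v : δ.V, ∀ e : δ.E, RT (p (v * e)) (q (v' * δ.φ e))

/-- a labelled representation: moving along a letter is the inverse action -/
structure LabRep (δ : Datum) {Λ : Type} (OK : Λ → Prop) (RA RT : Λ → Λ → Prop) where
  Y : Type
  r : Rep δ Y
  lab : Y → Λ
  y0 : Y
  free : Function.Injective r.L
  ok : ∀ y, OK (lab y)
  ra : ∀ y, RA (lab y) (lab ((r.L δ.a)⁻¹ y))
  rt : ∀ y, RT (lab y) (lab (r.T⁻¹ y))

/-- right multiplication as a representation of `V` on `A × V` -/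
def rightRep (V A : Type) [Group V] : V →* Equiv.Perm (A × V) where
  toFun v := ⟨fun y => (y.1, y.2 * v⁻¹), fun y => (y.1, y.2 * v), fun y => by simp,
    fun y => by simp⟩
  map_one' := by ext y <;> simp
  map_mul' u v := by ext y <;> simp [mul_assoc]

lemma rightRep_apply {V A : Type} [Group V] (v : V) (y : A × V) :
    rightRep V A v y = (y.1, y.2 * v⁻¹) := rfl

theorem exists_labRep {δ : Datum} {Λ : Type} {OK : Λ → Prop} {RA RT : Λ → Λ → Prop}
    {Θ : Set (δ.V → Λ)} (hΘ : Compat δ OK RA RT Θ) (hfin : Θ.Finite) :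
    Nonempty (LabRep δ OK RA RT) := by
  classical
  have : Finite Θ := hfin
  -- orbit kinds
  let P := Θ × (δ.V ⧸ δ.E)
  let Q := Θ × (δ.V ⧸ δ.φ.range)
  let R : P → Q → Prop := fun x y => ∃ v v' : δ.V, (QuotientGroup.mk v : δ.V ⧸ δ.E) = x.2 ∧
    (QuotientGroup.mk v' : δ.V ⧸ δ.φ.range) = y.2 ∧
    ∀ e : δ.E, RT (x.1.1 (v * e)) (y.1.1 (v' * δ.φ e))
  have : Finite P := inferInstanceAs (Finite (Θ × (δ.V ⧸ δ.E)))
  have : Finite Q := inferInstanceAs (Finite (Θ × (δ.V ⧸ δ.φ.range)))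
  obtain ⟨β, hβ⟩ := exists_match R
    (by
      rintro ⟨⟨p, hp⟩, c⟩
      obtain ⟨v, rfl⟩ := QuotientGroup.mk_surjective c
      obtain ⟨q, hq, v', h⟩ := hΘ.fwd p hp v
      exact ⟨(⟨q, hq⟩, QuotientGroup.mk v'), v, v', rfl, rfl, h⟩)
    (by
      rintro ⟨⟨q, hq⟩, c⟩
      obtain ⟨v', rfl⟩ := QuotientGroup.mk_surjective c
      obtain ⟨p, hp, v, h⟩ := hΘ.bwd q hq v'
      exact ⟨(⟨p, hp⟩, QuotientGroup.mk v), v, v', rfl, rfl, h⟩)
  choose bv bv' h1 h2 h3 using hβ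
  let Y := (Θ × ℕ) × δ.V
  -- the kind of a point
  let kd : Y → P × ℕ := fun y => ((y.1.1, QuotientGroup.mk y.2), y.1.2)
  have hmem : ∀ y : Y, (bv (kd y))⁻¹ * y.2 ∈ δ.E := by
    intro y
    rw [← QuotientGroup.eq]
    exact h1 (kd y)
  let B : Y → Y := fun y => (((β (kd y)).1.1, (β (kd y)).2),
    bv' (kd y) * δ.φ ⟨(bv (kd y))⁻¹ * y.2, hmem y⟩)
  have hBk : ∀ y : Y, (((B y).1.1, (QuotientGroup.mk (B y).2 : δ.V ⧸ δ.φ.range)), (B y).1.2) =
      β (kd y) := by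
    intro y
    have : (QuotientGroup.mk (B y).2 : δ.V ⧸ δ.φ.range) = (β (kd y)).1.2 := by
      rw [← h2 (kd y)]
      symm
      rw [QuotientGroup.eq]
      change (bv' (kd y))⁻¹ * (bv' (kd y) * δ.φ _) ∈ δ.φ.range
      rw [inv_mul_cancel_left]
      exact ⟨_, rfl⟩
    rw [this]
  have hinj : Function.Injective B := by
    intro y y' h
    have hk : kd y = kd y' := by
      apply β.injective
      rw [← hBk y, ← hBk y', h]
    have h5 : (B y).2 = (B y').2 := by rw [h]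
    have h6 : bv' (kd y) * δ.φ ⟨(bv (kd y))⁻¹ * y.2, hmem y⟩ =
        bv' (kd y') * δ.φ ⟨(bv (kd y'))⁻¹ * y'.2, hmem y'⟩ := h5
    have h7 : ∀ (k : P × ℕ) (_ : k = kd y') (hm : (bv k)⁻¹ * y.2 ∈ δ.E),
        bv' k * δ.φ ⟨(bv k)⁻¹ * y.2, hm⟩ =
          bv' (kd y') * δ.φ ⟨(bv (kd y'))⁻¹ * y'.2, hmem y'⟩ → y.2 = y'.2 := by
      intro k hk' hm h6
      subst hk'
      have h7 := δ.φ_inj (mul_left_cancel h6)
      exact mul_left_cancel (congrArg Subtype.val h7)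
    have h9 : y.2 = y'.2 := h7 _ hk _ h6
    have h10 : y.1.1 = y'.1.1 := congrArg (fun z => z.1.1) hk
    have h11 : y.1.2 = y'.1.2 := congrArg (fun z => z.2) hk
    exact Prod.ext (Prod.ext h10 h11) h9
  have hsurj : Function.Surjective B := by
    rintro ⟨⟨q, l⟩, u'⟩
    let z : Q × ℕ := ((q, QuotientGroup.mk u'), l)
    let x : P × ℕ := β.symm z
    have hx : β x = z := β.apply_symm_apply z
    have h4 : (bv' x)⁻¹ * u' ∈ δ.φ.range := by
      rw [← QuotientGroup.eq, h2 x, hx]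
    obtain ⟨e, he⟩ := h4
    have hk : kd (((x.1.1, x.2), bv x * e) : Y) = x := by
      have h5 : (QuotientGroup.mk (bv x * (e : δ.V)) : δ.V ⧸ δ.E) = x.1.2 := by
        rw [← h1 x]
        symm
        rw [QuotientGroup.eq, inv_mul_cancel_left]
        exact e.2
      change ((x.1.1, (QuotientGroup.mk (bv x * (e : δ.V)) : δ.V ⧸ δ.E)), x.2) = x
      rw [h5]
    refine ⟨((x.1.1, x.2), bv x * e), ?_⟩
    have h6 : B (((x.1.1, x.2), bv x * e) : Y) = ((z.1.1, z.2), u') := by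
      have h7 : (B (((x.1.1, x.2), bv x * e) : Y)).1 = (z.1.1, z.2) := by
        change ((β (kd _)).1.1, (β (kd _)).2) = _
        rw [hk, hx]
      have h8 : (B (((x.1.1, x.2), bv x * e) : Y)).2 = u' := by
        have h9 : ∀ (k : P × ℕ) (hk' : k = x) (hm : (bv k)⁻¹ * (bv x * (e : δ.V)) ∈ δ.E),
            bv' k * δ.φ ⟨(bv k)⁻¹ * (bv x * (e : δ.V)), hm⟩ = u' := by
          intro k hk' hm
          subst hk'
          have : (⟨(bv x)⁻¹ * (bv x * (e : δ.V)), hm⟩ : δ.E) = e := by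
            apply Subtype.ext
            change (bv x)⁻¹ * (bv x * (e : δ.V)) = e
            rw [inv_mul_cancel_left]
          rw [this, he, mul_inv_cancel_left]
        exact h9 _ hk _
      exact Prod.ext h7 h8
    exact h6
  let T : Equiv.Perm Y := (Equiv.ofBijective B ⟨hinj, hsurj⟩).symm
  have hT : ∀ y, T⁻¹ y = B y := fun y => rfl
  let L : δ.V →* Equiv.Perm Y := rightRep δ.V (Θ × ℕ)
  have hcomm : ∀ e : δ.E, L e * T = T * L (δ.φ e) := by
    intro e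
    have key : ∀ y : Y, B (L e y) = L (δ.φ e) (B y) := by
      rintro ⟨⟨p, k⟩, u⟩
      have hk : kd (L e ((p, k), u)) = kd ((p, k), u) := by
        change ((p, (QuotientGroup.mk (u * (e : δ.V)⁻¹) : δ.V ⧸ δ.E)), k) =
          ((p, (QuotientGroup.mk u : δ.V ⧸ δ.E)), k)
        congr 2
        symm
        rw [QuotientGroup.eq, inv_mul_cancel_left]
        exact δ.E.inv_mem e.2
      have h9 : ∀ (x : P × ℕ) (hx : x = kd ((p, k), u))
          (hm : (bv x)⁻¹ * (u * (e : δ.V)⁻¹) ∈ δ.E),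
          ((((β x).1.1, (β x).2), bv' x * δ.φ ⟨(bv x)⁻¹ * (u * (e : δ.V)⁻¹), hm⟩) : Y) =
            L (δ.φ e) (B ((p, k), u)) := by
        intro x hx hm
        subst hx
        change _ = (((β (kd ((p, k), u))).1.1, (β (kd ((p, k), u))).2),
          bv' (kd ((p, k), u)) * δ.φ ⟨(bv (kd ((p, k), u)))⁻¹ * u, hmem ((p, k), u)⟩ *
            (δ.φ e)⁻¹)
        congr 1
        rw [mul_assoc, ← map_inv, ← map_mul]
        congr 2
        apply Subtype.ext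
        change _ = (bv (kd ((p, k), u)))⁻¹ * u * (e : δ.V)⁻¹
        rw [mul_assoc]
      exact h9 _ hk _
    ext1 y
    rw [Equiv.Perm.mul_apply, Equiv.Perm.mul_apply]
    apply (Equiv.injective T⁻¹)
    rw [hT, key]
    have h10 : T⁻¹ (T (L (δ.φ e) y)) = L (δ.φ e) y := Equiv.symm_apply_apply T _
    have h11 : B (T y) = y := (Equiv.ofBijective B ⟨hinj, hsurj⟩).apply_symm_apply y
    rw [h10, h11]
  obtain ⟨p0, hp0⟩ := hΘ.ne
  refine ⟨⟨Y, ⟨L, T, hcomm⟩, fun y => y.1.1.1 y.2, ((⟨p0, hp0⟩, 0), 1), ?_, ?_, ?_, ?_⟩⟩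
  · intro v v' h
    have h4 : L v (((⟨p0, hp0⟩, 0), 1) : Y) = L v' (((⟨p0, hp0⟩, 0), 1) : Y) := by
      rw [show L v = L v' from h]
    have h5 : (1 : δ.V) * v⁻¹ = 1 * v'⁻¹ := congrArg Prod.snd h4
    simpa using h5
  · intro y
    exact (hΘ.ok y.1.1.1 y.1.1.2 y.2).1
  · intro y
    have h4 : (L δ.a)⁻¹ y = (y.1, y.2 * δ.a) := rfl
    change RA (y.1.1.1 y.2) (((L δ.a)⁻¹ y).1.1.1 ((L δ.a)⁻¹ y).2)
    rw [h4]
    exact (hΘ.ok y.1.1.1 y.1.1.2 y.2).2
  · intro y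
    change RT (y.1.1.1 y.2) ((T⁻¹ y).1.1.1 (T⁻¹ y).2)
    rw [hT]
    have h4 := h3 (kd y) ⟨(bv (kd y))⁻¹ * y.2, hmem y⟩
    have h5 : bv (kd y) * ((⟨(bv (kd y))⁻¹ * y.2, hmem y⟩ : δ.E) : δ.V) = y.2 := by
      change bv (kd y) * ((bv (kd y))⁻¹ * y.2) = y.2
      rw [mul_inv_cancel_left]
    rw [h5] at h4
    exact h4

/-- every datum has a faithful representation -/
theorem exists_faithful (δ : Datum) : ∃ (Y : Type) (r : Rep δ Y), Function.Injective r.L := by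
  have h : Compat δ (Λ := Unit) (fun _ => True) (fun _ _ => True) (fun _ _ => True) {fun _ => ()} :=
    ⟨⟨_, rfl⟩, fun _ _ _ => ⟨trivial, trivial⟩, fun _ _ _ => ⟨_, rfl, 1, fun _ => trivial⟩,
      fun _ _ _ => ⟨_, rfl, 1, fun _ => trivial⟩⟩
  obtain ⟨R⟩ := exists_labRep h (Set.finite_singleton _)
  exact ⟨R.Y, R.r, R.free⟩

end Pool.Agent.Lib.MP_018f72_lc
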