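import Pool.Agent.Lib.MP_018f72_lc.Window
import Pool.Agent.Lib.MP_018f72_lc.CodeRel

set_option autoImplicit false
set_option linter.unusedSectionVars false

/-!
# Deciding the existence of local patterns
-/

namespace Pool.Agent.Lib.MP_018f72_lc

/-- local patterns over a coded datum; `σ ^ B` labels, the allowed ones given by the bits of `A` -/
def Core (c σ B A : ℕ) : Prop :=
  ∃ θ < 2 ^ (σ ^ B) ^ csz c,
    (∃ p < (σ ^ B) ^ csz c, dig 2 θ p = 1) ∧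
    (∀ p < (σ ^ B) ^ csz c, dig 2 θ p = 1 → ∀ v < csz c,
      dig 2 A (dig (σ ^ B) p v) = 1 ∧
        Cons σ B 0 (dig (σ ^ B) p v) (dig (σ ^ B) p (cmul c v (cA c)))) ∧
    (∀ p < (σ ^ B) ^ csz c, dig 2 θ p = 1 → ∀ v < csz c,
      ∃ q < (σ ^ B) ^ csz c, dig 2 θ q = 1 ∧ ∃ x < csz c, ∀ e < csz c, cin c e →
        Cons σ B 1 (dig (σ ^ B) p (cmul c v e)) (dig (σ ^ B) q (cmul c x (cphi c e)))) ∧
    (∀ q < (σ ^ B) ^ csz c, dig 2 θ q = 1 → ∀ x < csz c,
      ∃ p < (σ ^ B) ^ csz c, dig 2 θ p = 1 ∧ ∃ v < csz c, ∀ e < csz c, cin c e →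
        Cons σ B 1 (dig (σ ^ B) p (cmul c v e)) (dig (σ ^ B) q (cmul c x (cphi c e))))

/-- formula for `Cons`; the quantified variable has number `k` -/
def Fm.cons (k : ℕ) (σ B s l l' : Tm) : Fm :=
  Fm.all B (Fm.and
    (Fm.imp (Fm.lt (Tm.add (Tm.pair (Tm.pair s (Tm.cst 1)) (Tm.var k)) (Tm.cst 1)) B)
      (Fm.eq (Tm.dig σ l (Tm.add (Tm.pair (Tm.pair s (Tm.cst 1)) (Tm.var k)) (Tm.cst 1)))
        (Tm.dig σ l' (Tm.var k))))
    (Fm.imp (Fm.lt (Tm.add (Tm.pair (Tm.pair s (Tm.cst 0)) (Tm.var k)) (Tm.cst 1)) B)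
      (Fm.eq (Tm.dig σ l' (Tm.add (Tm.pair (Tm.pair s (Tm.cst 0)) (Tm.var k)) (Tm.cst 1)))
        (Tm.dig σ l (Tm.var k)))))

/-- formula for `Core`, variables `c σ B A` -/
def fmCore : Fm :=
  let c := Tm.var 0
  let σ := Tm.var 1
  let B := Tm.var 2
  let A := Tm.var 3
  let L := Tm.pow σ B
  let K := Tm.pow L (Tm.sz c)
  let θ := Tm.var 4
  let bit := fun p => Fm.eq (Tm.dig (Tm.cst 2) θ p) (Tm.cst 1)
  Fm.ex (Tm.pow (Tm.cst 2) K) <|
    Fm.and (Fm.ex K (bit (Tm.var 5))) <|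
    Fm.and (Fm.all K (Fm.imp (bit (Tm.var 5)) (Fm.all (Tm.sz c)
      (Fm.and (Fm.eq (Tm.dig (Tm.cst 2) A (Tm.dig L (Tm.var 5) (Tm.var 6))) (Tm.cst 1))
        (Fm.cons 7 σ B (Tm.cst 0) (Tm.dig L (Tm.var 5) (Tm.var 6))
          (Tm.dig L (Tm.var 5) (Tm.cmul c (Tm.var 6) (Tm.cA c)))))))) <|
    Fm.and (Fm.all K (Fm.imp (bit (Tm.var 5)) (Fm.all (Tm.sz c)
      (Fm.ex K (Fm.and (bit (Tm.var 7)) (Fm.ex (Tm.sz c) (Fm.all (Tm.sz c)
        (Fm.imp (Fm.cin c (Tm.var 9))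
          (Fm.cons 10 σ B (Tm.cst 1) (Tm.dig L (Tm.var 5) (Tm.cmul c (Tm.var 6) (Tm.var 9)))
            (Tm.dig L (Tm.var 7) (Tm.cmul c (Tm.var 8) (Tm.cphi c (Tm.var 9)))))))))))))
    (Fm.all K (Fm.imp (bit (Tm.var 5)) (Fm.all (Tm.sz c)
      (Fm.ex K (Fm.and (bit (Tm.var 7)) (Fm.ex (Tm.sz c) (Fm.all (Tm.sz c)
        (Fm.imp (Fm.cin c (Tm.var 9))
          (Fm.cons 10 σ B (Tm.cst 1) (Tm.dig L (Tm.var 7) (Tm.cmul c (Tm.var 8) (Tm.var 9)))
            (Tm.dig L (Tm.var 5) (Tm.cmul c (Tm.var 6) (Tm.cphi c (Tm.var 9)))))))))))))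

lemma fmCore_eval (c σ B A : ℕ) : fmCore.eval [c, σ, B, A] ↔ Core c σ B A := Iff.rfl

lemma primrec_core {α : Type} [Primcodable α] {f g h k : α → ℕ} (hf : Primrec f) (hg : Primrec g)
    (hh : Primrec h) (hk : Primrec k) : PrimrecPred fun a => Core (f a) (g a) (h a) (k a) :=
  (fmCore.primrec.comp (primrec_list4 hf hg hh hk)).of_eq fun _ => Iff.rfl

theorem core_iff {c : ℕ} {δ : Datum} {ε : δ.V → ℕ} (hc : Codes c δ ε) (σ B A : ℕ) :
    Core c σ B A ↔ ∃ Θ : Set (δ.V → ℕ),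
      Compat δ (fun l => l < σ ^ B ∧ dig 2 A l = 1) (Cons σ B 0) (Cons σ B 1) Θ := by
  classical
  have hgi : ∀ v, Function.invFun ε (ε v) = v := Function.leftInverse_invFun hc.inj
  constructor
  · rintro ⟨θ, -, ⟨p0, hp0, hb0⟩, h1, h2, h3⟩
    have hL : 0 < σ ^ B := by
      rcases Nat.eq_zero_or_pos (σ ^ B) with h | h
      · rw [h, zero_pow hc.pos.ne'] at hp0
        omega
      · exact h
    refine ⟨{π | ∃ p < (σ ^ B) ^ csz c, dig 2 θ p = 1 ∧ π = fun v => dig (σ ^ B) p (ε v)},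
      ⟨_, p0, hp0, hb0, rfl⟩, ?_, ?_, ?_⟩
    · rintro π ⟨p, hp, hb, rfl⟩ v
      have := h1 p hp hb _ (hc.lt v)
      refine ⟨⟨dig_lt hL _ _, this.1⟩, ?_⟩
      have h4 := this.2
      rw [hc.a, hc.mul] at h4
      exact h4
    · rintro π ⟨p, hp, hb, rfl⟩ v
      obtain ⟨q, hq, hbq, x, hx, hx2⟩ := h2 p hp hb _ (hc.lt v)
      obtain ⟨x, rfl⟩ := (hc.rng x).1 hx
      refine ⟨_, ⟨q, hq, hbq, rfl⟩, x, fun e => ?_⟩
      have := hx2 _ (hc.lt e) ((hc.mem e).2 e.2)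
      rw [hc.mul, hc.phi, hc.mul] at this
      exact this
    · rintro π ⟨q, hq, hb, rfl⟩ v
      obtain ⟨p, hp, hbp, x, hx, hx2⟩ := h3 q hq hb _ (hc.lt v)
      obtain ⟨x, rfl⟩ := (hc.rng x).1 hx
      refine ⟨_, ⟨p, hp, hbp, rfl⟩, x, fun e => ?_⟩
      have := hx2 _ (hc.lt e) ((hc.mem e).2 e.2)
      rw [hc.mul, hc.phi, hc.mul] at this
      exact this
  · rintro ⟨Θ, hΘ⟩
    obtain ⟨θ, hθ, hbit⟩ := exists_bits ((σ ^ B) ^ csz c)
      (fun p => (fun v => dig (σ ^ B) p (ε v)) ∈ Θ)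
    -- every element of `Θ` has a code
    have hcode : ∀ π ∈ Θ, ∃ p < (σ ^ B) ^ csz c, ∀ v, dig (σ ^ B) p (ε v) = π v := by
      intro π hπ
      obtain ⟨p, hp, hp2⟩ := exists_dig (b := σ ^ B) (csz c)
        (fun i => π (Function.invFun ε i)) (fun i _ => (hΘ.ok π hπ _).1.1)
      exact ⟨p, hp, fun v => by rw [hp2 _ (hc.lt v), hgi]⟩
    refine ⟨θ, hθ, ?_, ?_, ?_, ?_⟩
    · obtain ⟨π, hπ⟩ := hΘ.ne
      obtain ⟨p, hp, hp2⟩ := hcode π hπ
      refine ⟨p, hp, (hbit p hp).2 ?_⟩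
      have : (fun v => dig (σ ^ B) p (ε v)) = π := funext hp2
      rw [this]
      exact hπ
    · intro p hp hb v hv
      obtain ⟨v, rfl⟩ := (hc.rng v).1 hv
      have h1 := hΘ.ok _ ((hbit p hp).1 hb) v
      refine ⟨h1.1.2, ?_⟩
      rw [hc.a, hc.mul]
      exact h1.2
    · intro p hp hb v hv
      obtain ⟨v, rfl⟩ := (hc.rng v).1 hv
      obtain ⟨π, hπ, x, hx⟩ := hΘ.fwd _ ((hbit p hp).1 hb) v
      obtain ⟨q, hq, hq2⟩ := hcode π hπ
      refine ⟨q, hq, (hbit q hq).2 ?_, ε x, hc.lt x, ?_⟩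
      · have : (fun v => dig (σ ^ B) q (ε v)) = π := funext hq2
        rw [this]
        exact hπ
      · intro e he hE
        obtain ⟨e, rfl⟩ := (hc.rng e).1 he
        rw [hc.mem] at hE
        have h1 := hc.phi ⟨e, hE⟩
        have h2 := hx ⟨e, hE⟩
        simp only at h1 h2
        rw [h1, hc.mul, hc.mul, hq2]
        exact h2
    · intro q hq hb x hx
      obtain ⟨x, rfl⟩ := (hc.rng x).1 hx
      obtain ⟨π, hπ, v, hv⟩ := hΘ.bwd _ ((hbit q hq).1 hb) x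
      obtain ⟨p, hp, hp2⟩ := hcode π hπ
      refine ⟨p, hp, (hbit p hp).2 ?_, ε v, hc.lt v, ?_⟩
      · have : (fun v => dig (σ ^ B) p (ε v)) = π := funext hp2
        rw [this]
        exact hπ
      · intro e he hE
        obtain ⟨e, rfl⟩ := (hc.rng e).1 he
        rw [hc.mem] at hE
        have h1 := hc.phi ⟨e, hE⟩
        have h2 := hv ⟨e, hE⟩
        simp only at h1 h2
        rw [h1, hc.mul, hc.mul, hp2]
        exact h2

/-! ### the allowed labels and the bound on word codes -/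

lemma encode_mem_lt {α : Type} [Encodable α] {a : α} {l : List α} (h : a ∈ l) :
    Encodable.encode a < Encodable.encode l := by
  induction l with
  | nil => exact absurd h (List.not_mem_nil)
  | cons b l ih =>
    rw [Encodable.encode_list_cons]
    rcases List.mem_cons.1 h with h | h
    · rw [h]
      exact Nat.lt_succ_of_le (Nat.left_le_pair _ _)
    · exact Nat.lt_succ_of_le ((ih h).le.trans (Nat.right_le_pair _ _))

lemma wcode_eq (u : List (Fin 2 × Bool)) : wcode u = Encodable.encode u := by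
  induction u with
  | nil => rfl
  | cons p u ih =>
    obtain ⟨i, b⟩ := p
    rw [Encodable.encode_list_cons]
    simp only [wcode]
    rw [ih]
    cases b <;> rfl

lemma primrec_wcode : Primrec wcode :=
  Primrec.encode.of_eq fun u => (wcode_eq u).symm

/-- a bound for the codes of the words of an instance -/
def bd (I : Inst) : ℕ := Encodable.encode I.2 + 1

lemma primrec_bd : Primrec bd := Primrec.succ.comp (Primrec.encode.comp Primrec.snd)

lemma lt_bd {I : Inst} {P : List (List (Fin 2 × Bool) × ℕ)} (hP : P ∈ I.2)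
    {q : List (Fin 2 × Bool) × ℕ} (hq : q ∈ P) : wcode q.1 < bd I := by
  rw [wcode_eq]
  have h1 : Encodable.encode q.1 ≤ Encodable.encode q := by
    rw [Encodable.encode_prod_val]
    exact Nat.left_le_pair _ _
  have h2 := encode_mem_lt hq
  have h3 := encode_mem_lt hP
  unfold bd
  omega

lemma primrec_dig {α : Type} [Primcodable α] {f g h : α → ℕ} (hf : Primrec f) (hg : Primrec g)
    (hh : Primrec h) : Primrec fun a => dig (f a) (g a) (h a) :=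
  Primrec.nat_mod.comp (Primrec.nat_div.comp hg (primrec_pow.comp hf hh)) hf

lemma primrec_allowed : PrimrecPred fun x : ℕ × Inst => Allowed x.2 x.1 := by
  have h0 : PrimrecRel fun (q : List (Fin 2 × Bool) × ℕ) (y : ℕ × ℕ) =>
      dig y.1 y.2 (wcode q.1) ≠ q.2 := by
    have h : PrimrecPred fun z : (List (Fin 2 × Bool) × ℕ) × (ℕ × ℕ) =>
        dig z.2.1 z.2.2 (wcode z.1.1) = z.1.2 :=
      Primrec.eq.comp
        (primrec_dig (Primrec.fst.comp Primrec.snd) (Primrec.snd.comp Primrec.snd)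
          (primrec_wcode.comp (Primrec.fst.comp Primrec.fst)))
        (Primrec.snd.comp Primrec.fst)
    exact h.not
  have h1 := h0.exists_mem_list.forall_mem_list
  exact h1.comp (Primrec.snd.comp Primrec.snd)
    (Primrec.pair (Primrec.fst.comp Primrec.snd) Primrec.fst)

/-- the decision procedure on a coded datum -/
def NE (c : ℕ) (I : Inst) : Prop :=
  ∃ A < 2 ^ I.1 ^ bd I, (∀ l < I.1 ^ bd I, dig 2 A l = 1 → Allowed I l) ∧ Core c I.1 (bd I) A

lemma primrec_ne : PrimrecPred fun x : ℕ × Inst => NE x.1 x.2 := by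
  have hσ : Primrec fun x : ℕ × Inst => x.2.1 := Primrec.fst.comp Primrec.snd
  have hB : Primrec fun x : ℕ × Inst => bd x.2 := primrec_bd.comp Primrec.snd
  have hL : Primrec fun x : ℕ × Inst => x.2.1 ^ bd x.2 := primrec_pow.comp hσ hB
  refine PrimrecPred.bex
    (P := fun A (x : ℕ × Inst) => (∀ l < x.2.1 ^ bd x.2, dig 2 A l = 1 → Allowed x.2 l) ∧
      Core x.1 x.2.1 (bd x.2) A) (primrec_pow.comp (Primrec.const 2) hL) ?_
  refine PrimrecPred.and ?_ ?_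
  · refine PrimrecPred.ball
      (P := fun l (y : ℕ × (ℕ × Inst)) => dig 2 y.1 l = 1 → Allowed y.2.2 l)
      (hL.comp Primrec.snd) ?_
    refine PrimrecPred.imp ?_ ?_
    · exact Primrec.eq.comp (primrec_dig (Primrec.const 2)
        (Primrec.fst.comp Primrec.snd) Primrec.fst) (Primrec.const 1)
    · exact primrec_allowed.comp (Primrec.pair Primrec.fst
        (Primrec.snd.comp (Primrec.snd.comp Primrec.snd)))
  · exact primrec_core (Primrec.fst.comp Primrec.snd) (hσ.comp Primrec.snd)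
      (hB.comp Primrec.snd) Primrec.fst

theorem ne_iff {c : ℕ} {δ : Datum} {ε : δ.V → ℕ} (hc : Codes c δ ε) (hg : δ.Gen) (I : Inst) :
    NE c I ↔ DomF δ.ker I := by
  rw [domF_iff_conf δ.ker I (bd I) (fun P hP q hq => lt_bd hP hq) (Nat.succ_pos _),
    ← compat_iff hg ((Set.finite_Iio (I.1 ^ bd I)).subset fun l hl => hl.1)]
  constructor
  · rintro ⟨A, -, hA, hcore⟩
    obtain ⟨Θ, hΘ⟩ := (core_iff hc _ _ _).1 hcore
    exact ⟨Θ, hΘ.ne, fun p hp v => ⟨⟨(hΘ.ok p hp v).1.1,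
      hA _ (hΘ.ok p hp v).1.1 (hΘ.ok p hp v).1.2⟩, (hΘ.ok p hp v).2⟩, hΘ.fwd, hΘ.bwd⟩
  · rintro ⟨Θ, hΘ⟩
    obtain ⟨A, hA, hbit⟩ := exists_bits (I.1 ^ bd I) (Allowed I)
    refine ⟨A, hA, fun l hl h => (hbit l hl).1 h, ?_⟩
    rw [core_iff hc]
    exact ⟨Θ, hΘ.ne, fun p hp v => ⟨⟨(hΘ.ok p hp v).1.1,
      (hbit _ (hΘ.ok p hp v).1.1).2 (hΘ.ok p hp v).1.2⟩, (hΘ.ok p hp v).2⟩, hΘ.fwd, hΘ.bwd⟩

end Pool.Agent.Lib.MP_018f72_lc
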