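import Pool.Agent.Lib.MP_018f72_lc.Datum
import Pool.Agent.Lib.MP_018f72_lc.Match

set_option autoImplicit false
set_option linter.unusedSectionVars false

/-!
# Refining a pair of data with room
-/

namespace Pool.Agent.Lib.MP_018f72_lc

/-- counting: not every function invariant under a small subgroup is a sum of two functions
invariant under larger subgroups -/
lemma exists_twist {G : Type} [Group G] [Finite G] (A B C : Subgroup G) (hCA : C ≤ A)
    (hCB : C ≤ B) (hA : ¬ A ≤ C) (hB : ¬ B ≤ C) :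
    ∃ m : G → ZMod 2, (∀ x, ∀ c ∈ C, m (x * c) = m x) ∧
      ¬ ∃ α β : G → ZMod 2, (∀ x, ∀ c ∈ A, α (x * c) = α x) ∧ (∀ x, ∀ c ∈ B, β (x * c) = β x) ∧
        ∀ x, m x = α x + β x := by
  classical
  by_contra hcon
  push Not at hcon
  let pA : G ⧸ C → G ⧸ A := Quotient.map' id (fun x y h => by
    rw [QuotientGroup.leftRel_apply] at h ⊢
    exact hCA h)
  let pB : G ⧸ C → G ⧸ B := Quotient.map' id (fun x y h => by
    rw [QuotientGroup.leftRel_apply] at h ⊢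
    exact hCB h)
  let Ψ : ((G ⧸ A → ZMod 2) × (G ⧸ B → ZMod 2)) → (G ⧸ C → ZMod 2) :=
    fun f q => f.1 (pA q) + f.2 (pB q)
  have hsurj : Function.Surjective Ψ := by
    intro F
    obtain ⟨α, β, h1, h2, h3⟩ := hcon (fun x => F (QuotientGroup.mk x)) (by
      intro x c hc
      congr 1
      symm
      rw [QuotientGroup.eq, inv_mul_cancel_left]
      exact hc)
    refine ⟨(Quotient.lift α ?_, Quotient.lift β ?_), ?_⟩
    · intro x y hxy
      have hxy' : x⁻¹ * y ∈ A := by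
        rwa [← QuotientGroup.leftRel_apply]
      have := h1 x _ hxy'
      rw [mul_inv_cancel_left] at this
      exact this.symm
    · intro x y hxy
      have hxy' : x⁻¹ * y ∈ B := by
        rwa [← QuotientGroup.leftRel_apply]
      have := h2 x _ hxy'
      rw [mul_inv_cancel_left] at this
      exact this.symm
    · funext q
      obtain ⟨x, rfl⟩ := QuotientGroup.mk_surjective q
      exact (h3 x).symm
  have hcard : Nat.card ((G ⧸ A → ZMod 2) × (G ⧸ B → ZMod 2)) ≤ Nat.card (G ⧸ C → ZMod 2) := by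
    rw [Nat.card_prod, Nat.card_fun, Nat.card_fun, Nat.card_fun, ← pow_add]
    refine Nat.pow_le_pow_right (by simp) ?_
    rw [← Subgroup.index_eq_card, ← Subgroup.index_eq_card, ← Subgroup.index_eq_card]
    have key : ∀ D : Subgroup G, C ≤ D → ¬ D ≤ C → 2 * D.index ≤ C.index := by
      intro D h1 h2
      rw [← Subgroup.relIndex_mul_index h1]
      refine Nat.mul_le_mul_right _ ?_
      have h3 : C.relIndex D ≠ 0 := by
        exact Subgroup.FiniteIndex.index_ne_zero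
      have h4 : C.relIndex D ≠ 1 := by
        rw [ne_eq, Subgroup.relIndex_eq_one]
        exact h2
      omega
    have h1 := key A hCA hA
    have h2 := key B hCB hB
    omega
  have hinj := (Function.Surjective.bijective_of_nat_card_le hsurj hcard).1
  have h0 : Ψ (fun _ => 0, fun _ => 0) = Ψ (fun _ => 1, fun _ => 1) := by
    funext q
    change (0 : ZMod 2) + 0 = 1 + 1
    decide
  have h1 := hinj h0
  have h2 : (0 : ZMod 2) = 1 := congrFun (congrArg Prod.fst h1) (QuotientGroup.mk 1)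
  exact absurd h2 (by decide)

/-- translation of the first coordinate -/
def tw {G : Type} (m : G → ZMod 2) : Equiv.Perm (ZMod 2 × G) where
  toFun y := (y.1 + m y.2, y.2)
  invFun y := (y.1 - m y.2, y.2)
  left_inv y := by simp
  right_inv y := by simp

/-- the splitting lemma -/
lemma exists_split {G V : Type} [Group G] [Finite G] [Group V] [Finite V] (h : V →* G)
    (E : Subgroup V) (φ : E →* V) (E₁ : Subgroup G) (φ₁ : E₁ →* G) (hE : ∀ e ∈ E, h e ∈ E₁)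
    (hφ : ∀ e : E, h (φ e) = φ₁ ⟨h e, hE e e.2⟩)
    (hA : ∃ v, ∀ e : E, h v ≠ h (φ e)) (hB : ∃ d : E₁, ∀ e : E, φ₁ d ≠ h (φ e))
    (hgen : Subgroup.closure (Set.range h ∪ Set.range φ₁) = ⊤) :
    ∃ (H : Type) (_ : Group H) (_ : Finite H) (i : V →* H) (ψ : E₁ →* H) (κ : H →* G),
      (∀ v, κ (i v) = h v) ∧ (∀ d, κ (ψ d) = φ₁ d) ∧
      (∀ e : E, i (φ e) = ψ ⟨h e, hE e e.2⟩) ∧
      Subgroup.closure (Set.range i ∪ Set.range ψ) = ⊤ ∧ ∃ n, n ≠ 1 ∧ κ n = 1 := by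
  classical
  obtain ⟨m, hm, hno⟩ := exists_twist h.range φ₁.range (h.comp φ).range
    (by
      rintro _ ⟨e, rfl⟩
      exact ⟨φ e, rfl⟩)
    (by
      rintro _ ⟨e, rfl⟩
      exact ⟨⟨h e, hE e e.2⟩, (hφ e).symm⟩)
    (by
      intro hle
      obtain ⟨v, hv⟩ := hA
      obtain ⟨e, he⟩ := hle ⟨v, rfl⟩
      exact hv e he.symm)
    (by
      intro hle
      obtain ⟨d, hd⟩ := hB
      obtain ⟨e, he⟩ := hle ⟨d, rfl⟩
      exact hd e he.symm)
  let P : G →* Equiv.Perm (ZMod 2 × G) := rightRep G (ZMod 2)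
  let A : V →* Equiv.Perm (ZMod 2 × G) := (MulAut.conj (tw m)).toMonoidHom.comp (P.comp h)
  have hAapp : ∀ v y, A v y = (y.1 - m y.2 + m (y.2 * (h v)⁻¹), y.2 * (h v)⁻¹) := fun v y => rfl
  let iW : V →* Equiv.Perm (ZMod 2 × G) × G := A.prod h
  let pW : E₁ →* Equiv.Perm (ZMod 2 × G) × G := (P.comp φ₁).prod φ₁
  let H : Subgroup (Equiv.Perm (ZMod 2 × G) × G) :=
    Subgroup.closure (Set.range iW ∪ Set.range pW)
  have hiW : ∀ v, iW v ∈ H := fun v => Subgroup.subset_closure (Or.inl ⟨v, rfl⟩)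
  have hpW : ∀ d, pW d ∈ H := fun d => Subgroup.subset_closure (Or.inr ⟨d, rfl⟩)
  let i : V →* H := iW.codRestrict H hiW
  let ψ : E₁ →* H := pW.codRestrict H hpW
  let κ : H →* G := (MonoidHom.snd _ _).comp H.subtype
  refine ⟨H, inferInstance, inferInstance, i, ψ, κ, fun v => rfl, fun d => rfl, ?_, ?_, ?_⟩
  · intro e
    apply Subtype.ext
    refine Prod.ext ?_ (hφ e)
    change A (φ e) = P (φ₁ ⟨h e, hE e e.2⟩)
    rw [← hφ e]
    ext1 y
    rw [hAapp]
    have h1 := hm y.2 (h (φ e))⁻¹ ((h.comp φ).range.inv_mem ⟨e, rfl⟩)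
    rw [h1, sub_add_cancel]
    rfl
  · have h1 : Subgroup.map H.subtype (Subgroup.closure (Set.range i ∪ Set.range ψ)) = H := by
      rw [MonoidHom.map_closure, Set.image_union, ← Set.range_comp, ← Set.range_comp]
      rfl
    apply Subgroup.map_injective H.subtype_injective
    rw [h1, ← MonoidHom.range_eq_map, Subgroup.range_subtype]
  · by_contra hcon
    push Not at hcon
    apply hno
    have hinj : Function.Injective κ := by
      rw [injective_iff_map_eq_one]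
      intro n hn
      by_contra hn1
      exact hcon n hn1 hn
    have hsurj : Function.Surjective κ := by
      rw [← MonoidHom.range_eq_top, eq_top_iff, ← hgen, Subgroup.closure_le]
      rintro _ (⟨v, rfl⟩ | ⟨d, rfl⟩)
      · exact ⟨i v, rfl⟩
      · exact ⟨ψ d, rfl⟩
    let s : H ≃* G := MulEquiv.ofBijective κ ⟨hinj, hsurj⟩
    let S : G →* Equiv.Perm (ZMod 2 × G) :=
      ((MonoidHom.fst _ _).comp H.subtype).comp s.symm.toMonoidHom
    have hSV : ∀ v, S (h v) = A v := by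
      intro v
      have h1 : s.symm (h v) = i v := by
        rw [MulEquiv.symm_apply_eq]; rfl
      change (s.symm (h v) : Equiv.Perm (ZMod 2 × G) × G).1 = A v
      rw [h1]; rfl
    have hSE : ∀ d, S (φ₁ d) = P (φ₁ d) := by
      intro d
      have h1 : s.symm (φ₁ d) = ψ d := by
        rw [MulEquiv.symm_apply_eq]; rfl
      change (s.symm (φ₁ d) : Equiv.Perm (ZMod 2 × G) × G).1 = P (φ₁ d)
      rw [h1]; rfl
    have hstr : ∀ g : G, ∃ f : G → ZMod 2, ∀ y, S g y = (y.1 + f y.2, y.2 * g⁻¹) := by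
      intro g
      have hg : g ∈ Subgroup.closure (Set.range h ∪ Set.range φ₁) := by
        rw [hgen]; exact Subgroup.mem_top g
      induction hg using Subgroup.closure_induction with
      | mem x hx =>
        rcases hx with ⟨v, rfl⟩ | ⟨d, rfl⟩
        · refine ⟨fun x => - m x + m (x * (h v)⁻¹), fun y => ?_⟩
          rw [hSV, hAapp]
          congr 1
          ring
        · refine ⟨fun _ => 0, fun y => ?_⟩
          rw [hSE, add_zero]
          rfl
      | one => exact ⟨fun _ => 0, fun y => by rw [map_one]; simp⟩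
      | mul x y _ _ hx hy =>
        obtain ⟨f, hf⟩ := hx
        obtain ⟨f', hf'⟩ := hy
        refine ⟨fun z => f' z + f (z * y⁻¹), fun z => ?_⟩
        rw [map_mul, Equiv.Perm.mul_apply, hf', hf]
        simp only [mul_inv_rev, mul_assoc, add_assoc]
      | inv x _ hx =>
        obtain ⟨f, hf⟩ := hx
        refine ⟨fun z => - f (z * x), fun z => ?_⟩
        rw [map_inv, Equiv.Perm.inv_eq_iff_eq, hf, inv_inv]
        refine Prod.ext ?_ ?_
        · change z.1 = z.1 + -f (z.2 * x) + f (z.2 * x)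
          ring
        · change z.2 = z.2 * x * x⁻¹
          rw [mul_inv_cancel_right]
    let m' : G → ZMod 2 := fun x => (S x⁻¹ (0, 1)).1
    have hm' : ∀ x, S x⁻¹ (0, 1) = (m' x, x) := by
      intro x
      obtain ⟨f, hf⟩ := hstr x⁻¹
      have h1 := hf (0, 1)
      refine Prod.ext rfl ?_
      rw [h1]
      simp
    have hS : ∀ g y, S g y = (y.1 + (m' (y.2 * g⁻¹) - m' y.2), y.2 * g⁻¹) := by
      intro g y
      obtain ⟨f, hf⟩ := hstr g
      have h1 : S g (m' y.2, y.2) = (m' (y.2 * g⁻¹), y.2 * g⁻¹) := by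
        rw [← hm', ← Equiv.Perm.mul_apply, ← map_mul, ← hm']
        congr 2
        simp
      rw [hf] at h1
      have h2 : m' y.2 + f y.2 = m' (y.2 * g⁻¹) := congrArg Prod.fst h1
      rw [hf, ← h2]
      congr 1
      ring
    refine ⟨fun x => m x - m' x, m', ?_, ?_, fun x => by ring⟩
    · rintro x _ ⟨v, rfl⟩
      have h1 := hS (h v)⁻¹ (0, x)
      rw [map_inv, hSV, ← map_inv, hAapp] at h1
      have h2 := congrArg Prod.fst h1
      simp only [map_inv, inv_inv, zero_sub, zero_add] at h2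
      change m (x * h v) - m' (x * h v) = m x - m' x
      linear_combination h2
    · rintro x _ ⟨d, rfl⟩
      have h1 := hS (φ₁ d)⁻¹ (0, x)
      rw [map_inv, hSE, ← map_inv] at h1
      have h2 : (0 : ZMod 2) = 0 + (m' (x * (φ₁ d)⁻¹⁻¹) - m' x) := congrArg Prod.fst h1
      rw [inv_inv, zero_add] at h2
      exact (sub_eq_zero.1 h2.symm)

/-- left translation of the first coordinate -/
def twl {G : Type} [Group G] (c : G → G) : Equiv.Perm (G × G) where
  toFun y := (c y.2 * y.1, y.2)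
  invFun y := ((c y.2)⁻¹ * y.1, y.2)
  left_inv y := by simp
  right_inv y := by simp

open Classical in
/-- the action of the larger group -/
noncomputable def bigRep {G : Type} [Group G] {E : Subgroup G} (ψ : E →* G) :
    E →* Function.End (G × G) where
  toFun e := fun y => (if y.2 ∈ ψ.range then (e : G) * y.1 else y.1, y.2 * (ψ e)⁻¹)
  map_one' := by
    funext y
    simp only [OneMemClass.coe_one, one_mul, ite_self, map_one, inv_one, mul_one]
    rfl
  map_mul' e e' := by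
    funext y
    change _ = ((if y.2 * (ψ e')⁻¹ ∈ ψ.range then (e : G) * (if y.2 ∈ ψ.range then (e' : G) * y.1
      else y.1) else (if y.2 ∈ ψ.range then (e' : G) * y.1 else y.1)), y.2 * (ψ e')⁻¹ * (ψ e)⁻¹)
    have h1 : (y.2 * (ψ e')⁻¹ ∈ ψ.range) ↔ y.2 ∈ ψ.range :=
      Subgroup.mul_mem_cancel_right _ (ψ.range.inv_mem ⟨e', rfl⟩)
    by_cases h : y.2 ∈ ψ.range
    · rw [if_pos h, if_pos (h1.2 h), if_pos h, map_mul, mul_inv_rev, Subgroup.coe_mul, mul_assoc,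
        mul_assoc]
    · rw [if_neg h, if_neg (fun h2 => h (h1.1 h2)), if_neg h, map_mul, mul_inv_rev, mul_assoc]

/-- the extension lemma -/
lemma exists_ext {G : Type} [Group G] [Finite G] (E₂ E₃ : Subgroup G) (h23 : E₂ ≤ E₃)
    (ψ : E₃ →* G)
    (hinj : ∀ (d : G) (hd : d ∈ E₂) (d' : G) (hd' : d' ∈ E₂),
      ψ ⟨d, h23 hd⟩ = ψ ⟨d', h23 hd'⟩ → d = d')
    (hsub : ∀ e : E₃, ∃ (d : G) (hd : d ∈ E₂), ψ ⟨d, h23 hd⟩ = ψ e) :
    ∃ (H : Type) (_ : Group H) (_ : Finite H) (i : G →* H) (φ' : E₃ →* H) (π : H →* G),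
      (∀ g, π (i g) = g) ∧ (∀ e, π (φ' e) = ψ e) ∧ Function.Injective φ' ∧
      (∀ (d : G) (hd : d ∈ E₂), φ' ⟨d, h23 hd⟩ = i (ψ ⟨d, h23 hd⟩)) ∧
      Subgroup.closure (Set.range i ∪ Set.range φ') = ⊤ := by
  classical
  let c : G → G := fun x => if h : ∃ (d : G) (hd : d ∈ E₂), ψ ⟨d, h23 hd⟩ = x then h.choose⁻¹ else 1
  have hc1 : ∀ (d : G) (hd : d ∈ E₂), c (ψ ⟨d, h23 hd⟩) = d⁻¹ := by
    intro d hd
    have h : ∃ (d' : G) (hd' : d' ∈ E₂), ψ ⟨d', h23 hd'⟩ = ψ ⟨d, h23 hd⟩ := ⟨d, hd, rfl⟩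
    change (if h : ∃ (d' : G) (hd' : d' ∈ E₂), ψ ⟨d', h23 hd'⟩ = ψ ⟨d, h23 hd⟩ then
      h.choose⁻¹ else 1) = d⁻¹
    rw [dif_pos h]
    obtain ⟨h1, h2⟩ := h.choose_spec
    rw [hinj _ h1 d hd h2]
  have hc2 : ∀ x, x ∉ ψ.range → c x = 1 := by
    intro x hx
    change (if h : ∃ (d' : G) (hd' : d' ∈ E₂), ψ ⟨d', h23 hd'⟩ = x then h.choose⁻¹ else 1) = 1
    rw [dif_neg]
    rintro ⟨d, hd, h⟩
    exact hx ⟨_, h⟩
  let P : G →* Equiv.Perm (G × G) := rightRep G G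
  let A : G →* Equiv.Perm (G × G) := (MulAut.conj (twl c)).toMonoidHom.comp P
  have hAapp : ∀ g y, A g y = (c (y.2 * g⁻¹) * ((c y.2)⁻¹ * y.1), y.2 * g⁻¹) := fun g y => rfl
  let B : E₃ →* Equiv.Perm (G × G) := (bigRep ψ).toHomPerm
  have hBapp : ∀ e y, B e y = (if y.2 ∈ ψ.range then (e : G) * y.1 else y.1, y.2 * (ψ e)⁻¹) :=
    fun e y => rfl
  let iW : G →* Equiv.Perm (G × G) × G := A.prod (MonoidHom.id G)
  let pW : E₃ →* Equiv.Perm (G × G) × G := B.prod ψ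
  let H : Subgroup (Equiv.Perm (G × G) × G) := Subgroup.closure (Set.range iW ∪ Set.range pW)
  have hiW : ∀ v, iW v ∈ H := fun v => Subgroup.subset_closure (Or.inl ⟨v, rfl⟩)
  have hpW : ∀ d, pW d ∈ H := fun d => Subgroup.subset_closure (Or.inr ⟨d, rfl⟩)
  let i : G →* H := iW.codRestrict H hiW
  let φ' : E₃ →* H := pW.codRestrict H hpW
  let π : H →* G := (MonoidHom.snd _ _).comp H.subtype
  refine ⟨H, inferInstance, inferInstance, i, φ', π, fun v => rfl, fun d => rfl, ?_, ?_, ?_⟩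
  · intro e e' h
    have h1 : B e = B e' := congrArg (fun z : H => (z : Equiv.Perm (G × G) × G).1) h
    have h2 : B e (1, 1) = B e' (1, 1) := by rw [h1]
    rw [hBapp, hBapp] at h2
    have h3 : (1 : G) ∈ ψ.range := ψ.range.one_mem
    simp only [h3, if_true, mul_one] at h2
    exact Subtype.ext (congrArg Prod.fst h2)
  · intro d hd
    apply Subtype.ext
    refine Prod.ext ?_ rfl
    change B ⟨d, h23 hd⟩ = A (ψ ⟨d, h23 hd⟩)
    ext1 y
    rw [hBapp, hAapp]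
    by_cases hy : y.2 ∈ ψ.range
    · rw [if_pos hy]
      obtain ⟨e, he⟩ := hy
      obtain ⟨d0, hd0, h0⟩ := hsub e
      have h1 : c y.2 = d0⁻¹ := by rw [← he, ← h0, hc1 d0 hd0]
      have h2 : c (y.2 * (ψ ⟨d, h23 hd⟩)⁻¹) = (d0 * d⁻¹)⁻¹ := by
        have h3 : y.2 * (ψ ⟨d, h23 hd⟩)⁻¹ =
            ψ ⟨d0 * d⁻¹, h23 (E₂.mul_mem hd0 (E₂.inv_mem hd))⟩ := by
          rw [← he, ← h0, ← map_inv, ← map_mul]
          rfl
        rw [h3, hc1 _ (E₂.mul_mem hd0 (E₂.inv_mem hd))]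
      rw [h1, h2]
      congr 1
      change d * y.1 = _
      group
    · rw [if_neg hy, hc2 _ hy, hc2]
      · simp
      · intro h
        exact hy ((Subgroup.mul_mem_cancel_right _ (ψ.range.inv_mem ⟨_, rfl⟩)).1 h)
  · have h1 : Subgroup.map H.subtype (Subgroup.closure (Set.range i ∪ Set.range φ')) = H := by
      rw [MonoidHom.map_closure, Set.image_union, ← Set.range_comp, ← Set.range_comp]
      rfl
    apply Subgroup.map_injective H.subtype_injective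
    rw [h1, ← MonoidHom.range_eq_map, Subgroup.range_subtype]

/-- refinement of a pair of data with room -/
theorem exists_refine {δ δ₁ : Datum} (m : Mor δ δ₁) (hm : Room m) :
    ∃ (δ₂ δ₃ : Datum) (m₂ : Mor δ δ₂) (_ : Mor δ₂ δ₁) (m₃ : Mor δ₂ δ₃) (_ : Mor δ₃ δ₁),
      Room m₂ ∧ Room m₃ := by
  classical
  have hA : ∃ v, ∀ e : δ.E, m.h v ≠ m.h (δ.φ e) := by
    by_contra hcon
    push Not at hcon
    have hs : Function.Surjective δ.φ := by
      intro v
      obtain ⟨e, he⟩ := hcon v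
      exact ⟨e, (hm.inj he).symm⟩
    have h1 := Nat.card_le_card_of_surjective _ hs
    obtain ⟨v, hv⟩ := hm.ne
    apply hv
    rw [Subgroup.eq_top_of_le_card δ.E h1]
    exact Subgroup.mem_top v
  have hB : ∃ d : δ₁.E, ∀ e : δ.E, δ₁.φ d ≠ m.h (δ.φ e) := by
    obtain ⟨x, hx, hne⟩ := hm.strict
    refine ⟨⟨x, hx⟩, fun e he => hne e e.2 ?_⟩
    rw [m.hφ e] at he
    exact (congrArg Subtype.val (δ₁.φ_inj he)).symm
  obtain ⟨H, _, _, i, ψ, κ, hκi, hκψ, hiψ, hgen, n, hn1, hκn⟩ :=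
    exists_split m.h δ.E δ.φ δ₁.E δ₁.φ m.hE m.hφ hA hB hm.gen
  have hiinj : Function.Injective i := by
    intro v w h
    apply hm.inj
    rw [← hκi, ← hκi, h]
  have hψinj : Function.Injective ψ := by
    intro d d' h
    apply δ₁.φ_inj
    rw [← hκψ, ← hκψ, h]
  let E₂ : Subgroup H := (δ₁.E.comap m.h).map i
  have hE₂ : ∀ x : E₂, κ x ∈ δ₁.E := by
    rintro ⟨_, v, hv, rfl⟩
    change κ (i v) ∈ δ₁.E
    rw [hκi]
    exact hv
  have hiE₂ : ∀ v, m.h v ∈ δ₁.E → i v ∈ E₂ := fun v hv => ⟨v, hv, rfl⟩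
  let κ₂ : E₂ →* δ₁.E := (κ.comp E₂.subtype).codRestrict δ₁.E hE₂
  let φ₂ : E₂ →* H := ψ.comp κ₂
  have hφ₂inj : Function.Injective φ₂ := by
    rintro ⟨_, v, hv, rfl⟩ ⟨_, w, hw, rfl⟩ h
    have h1 : κ (i v) = κ (i w) := congrArg Subtype.val (hψinj h)
    rw [hκi, hκi] at h1
    have h2 := hm.inj h1
    subst h2
    rfl
  have hφ₂i : ∀ v (hv : m.h v ∈ δ₁.E), φ₂ ⟨i v, hiE₂ v hv⟩ = ψ ⟨m.h v, hv⟩ := by
    intro v hv
    change ψ (κ₂ ⟨i v, hiE₂ v hv⟩) = _
    congr 1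
    exact Subtype.ext (hκi v)
  let δ₂ : Datum := ⟨H, E₂, φ₂, hφ₂inj, i δ.a⟩
  let m₂ : Mor δ δ₂ :=
    { h := i
      hE := fun e he => hiE₂ e (m.hE e he)
      hφ := fun e => by
        change i (δ.φ e) = φ₂ ⟨i e, _⟩
        rw [hiψ e, hφ₂i e (m.hE e e.2)]
      ha := rfl }
  let k₂ : Mor δ₂ δ₁ :=
    { h := κ
      hE := fun e he => hE₂ ⟨e, he⟩
      hφ := fun e => hκψ _
      ha := by
        change κ (i δ.a) = δ₁.a
        rw [hκi, m.ha] }
  have hroom₂ : Room m₂ := by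
    refine ⟨hiinj, ?_, ?_, hm.ne, ?_⟩
    · rintro _ ⟨v, _, rfl⟩
      exact ⟨v, rfl⟩
    · obtain ⟨x, hx, hne⟩ := hm.strict
      obtain ⟨v, rfl⟩ := hm.sub x hx
      refine ⟨i v, hiE₂ v hx, fun e he h => hne e he ?_⟩
      have h1 : e = v := hiinj h
      rw [h1]
    · rw [eq_top_iff, ← hgen, Subgroup.closure_le]
      rintro _ (⟨v, rfl⟩ | ⟨⟨d, hd⟩, rfl⟩)
      · exact Subgroup.subset_closure (Or.inl ⟨v, rfl⟩)
      · obtain ⟨v, rfl⟩ := hm.sub d hd
        exact Subgroup.subset_closure (Or.inr ⟨⟨i v, hiE₂ v hd⟩, hφ₂i v hd⟩)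
  -- the second extension
  let E₃ : Subgroup H := δ₁.E.comap κ
  have h23 : E₂ ≤ E₃ := fun x hx => hE₂ ⟨x, hx⟩
  let κ₃ : E₃ →* δ₁.E := (κ.comp E₃.subtype).codRestrict δ₁.E (fun x => x.2)
  let Ψ : E₃ →* H := ψ.comp κ₃
  have hΨ : ∀ d (hd : d ∈ E₂), Ψ ⟨d, h23 hd⟩ = φ₂ ⟨d, hd⟩ := fun d hd => rfl
  have hnE₂ : n ∉ E₂ := by
    rintro ⟨v, _, hv⟩
    apply hn1
    have h1 : m.h v = 1 := by rw [← hκi, hv, hκn]
    have h2 : v = 1 := hm.inj (by rw [h1, map_one])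
    rw [← hv, h2, map_one]
  obtain ⟨H₃, _, _, i₃, φ', π, hπi, hπφ, hφ'inj, hφ'i, hgen₃⟩ := exists_ext E₂ E₃ h23 Ψ
    (by
      intro d hd d' hd' h
      rw [hΨ d hd, hΨ d' hd'] at h
      exact congrArg Subtype.val (hφ₂inj h))
    (by
      intro e
      obtain ⟨v, hv⟩ := hm.sub (κ e) e.2
      have hv' : m.h v ∈ δ₁.E := by rw [hv]; exact e.2
      refine ⟨i v, hiE₂ v hv', ?_⟩
      rw [hΨ _ (hiE₂ v hv'), hφ₂i v hv']
      change ψ _ = ψ (κ₃ e)
      congr 1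
      exact Subtype.ext hv)
  have hi₃inj : Function.Injective i₃ := by
    intro g g' h
    rw [← hπi g, ← hπi g', h]
  let F : Subgroup H₃ := E₃.map i₃
  have hF : ∀ x : F, π x ∈ E₃ := by
    rintro ⟨_, g, hg, rfl⟩
    change π (i₃ g) ∈ E₃
    rw [hπi]
    exact hg
  let πF : F →* E₃ := (π.comp F.subtype).codRestrict E₃ hF
  let φ₃ : F →* H₃ := φ'.comp πF
  have hφ₃inj : Function.Injective φ₃ := by
    rintro ⟨_, g, hg, rfl⟩ ⟨_, g', hg', rfl⟩ h
    have h1 : π (i₃ g) = π (i₃ g') := congrArg Subtype.val (hφ'inj h)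
    rw [hπi, hπi] at h1
    subst h1
    rfl
  have hφ₃i : ∀ g (hg : g ∈ E₃), φ₃ ⟨i₃ g, g, hg, rfl⟩ = φ' ⟨g, hg⟩ := by
    intro g hg
    change φ' (πF ⟨i₃ g, g, hg, rfl⟩) = _
    congr 1
    exact Subtype.ext (hπi g)
  let δ₃ : Datum := ⟨H₃, F, φ₃, hφ₃inj, i₃ (i δ.a)⟩
  let m₃ : Mor δ₂ δ₃ :=
    { h := i₃
      hE := fun e he => ⟨e, h23 he, rfl⟩
      hφ := fun e => by
        change i₃ (φ₂ e) = φ₃ ⟨i₃ (e : H), _⟩
        rw [hφ₃i e (h23 e.2), hφ'i e e.2]
        rfl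
      ha := rfl }
  let k₃ : Mor δ₃ δ₁ :=
    { h := κ.comp π
      hE := fun e he => hF ⟨e, he⟩
      hφ := fun e => by
        change κ (π (φ' (πF e))) = _
        rw [hπφ]
        exact hκψ _
      ha := by
        change κ (π (i₃ (i δ.a))) = δ₁.a
        rw [hπi, hκi, m.ha] }
  have hroom₃ : Room m₃ := by
    refine ⟨hi₃inj, ?_, ?_, ⟨n, hnE₂⟩, ?_⟩
    · rintro _ ⟨g, _, rfl⟩
      exact ⟨g, rfl⟩
    · refine ⟨i₃ n, ⟨n, ?_, rfl⟩, ?_⟩
      · change κ n ∈ δ₁.E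
        rw [hκn]
        exact δ₁.E.one_mem
      · intro e he h
        apply hnE₂
        have h1 : e = n := hi₃inj h
        rw [← h1]
        exact he
    · rw [eq_top_iff, ← hgen₃, Subgroup.closure_le]
      rintro _ (⟨v, rfl⟩ | ⟨⟨d, hd⟩, rfl⟩)
      · exact Subgroup.subset_closure (Or.inl ⟨v, rfl⟩)
      · exact Subgroup.subset_closure (Or.inr ⟨⟨i₃ d, d, hd, rfl⟩, hφ₃i d hd⟩)
  exact ⟨δ₂, δ₃, m₂, k₂, m₃, k₃, hroom₂, hroom₃⟩

end Pool.Agent.Lib.MP_018f72_lc
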