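import Pool.Agent.Lib.MP_018f72_lc.NE
import Pool.Agent.Lib.MP_018f72_lc.Refine

set_option autoImplicit false
set_option linter.unusedSectionVars false

/-!
# The computable sequence of nested pairs of data
-/

namespace Pool.Agent.Lib.MP_018f72_lc

/-- upper datum of a state -/
def sc (s : ℕ) : ℕ := (Nat.unpair s).1

/-- lower datum of a state -/
def sd (s : ℕ) : ℕ := (Nat.unpair (Nat.unpair s).2).1

/-- morphism of a state -/
def sh (s : ℕ) : ℕ := (Nat.unpair (Nat.unpair s).2).2

/-- valid states -/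
def Valid (s : ℕ) : Prop :=
  IsDatum (sc s) ∧ IsDatum (sd s) ∧ IsMor (sc s) (sd s) (sh s) ∧ RoomC (sc s) (sd s) (sh s)

/-- first candidate -/
def yy (x : ℕ) : ℕ := (Nat.unpair x).1

/-- second candidate -/
def zz (x : ℕ) : ℕ := (Nat.unpair (Nat.unpair x).2).1

/-- first morphism -/
def ma (x : ℕ) : ℕ := (Nat.unpair (Nat.unpair (Nat.unpair x).2).2).1

/-- second morphism -/
def mb (x : ℕ) : ℕ := (Nat.unpair (Nat.unpair (Nat.unpair x).2).2).2

/-- `x` codes a refinement of the state `s` -/
def Good (s x : ℕ) : Prop :=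
  Valid (yy x) ∧ Valid (zz x) ∧ sc (yy x) = sc s ∧ sc (zz x) = sd (yy x) ∧
    IsMor (sd (yy x)) (sd s) (ma x) ∧ IsMor (sd (zz x)) (sd s) (mb x)

section

variable {α : Type} [Primcodable α]

lemma primrec_fst' {f : α → ℕ} (hf : Primrec f) : Primrec fun a => (Nat.unpair (f a)).1 :=
  Primrec.fst.comp (Primrec.unpair.comp hf)

lemma primrec_snd' {f : α → ℕ} (hf : Primrec f) : Primrec fun a => (Nat.unpair (f a)).2 :=
  Primrec.snd.comp (Primrec.unpair.comp hf)

lemma primrec_sc {f : α → ℕ} (hf : Primrec f) : Primrec fun a => sc (f a) := primrec_fst' hf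
lemma primrec_sd {f : α → ℕ} (hf : Primrec f) : Primrec fun a => sd (f a) :=
  primrec_fst' (primrec_snd' hf)
lemma primrec_sh {f : α → ℕ} (hf : Primrec f) : Primrec fun a => sh (f a) :=
  primrec_snd' (primrec_snd' hf)
lemma primrec_yy {f : α → ℕ} (hf : Primrec f) : Primrec fun a => yy (f a) := primrec_fst' hf
lemma primrec_zz {f : α → ℕ} (hf : Primrec f) : Primrec fun a => zz (f a) :=
  primrec_fst' (primrec_snd' hf)
lemma primrec_ma {f : α → ℕ} (hf : Primrec f) : Primrec fun a => ma (f a) :=
  primrec_fst' (primrec_snd' (primrec_snd' hf))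
lemma primrec_mb {f : α → ℕ} (hf : Primrec f) : Primrec fun a => mb (f a) :=
  primrec_snd' (primrec_snd' (primrec_snd' hf))

lemma primrec_valid {f : α → ℕ} (hf : Primrec f) : PrimrecPred fun a => Valid (f a) :=
  (primrec_isDatum (primrec_sc hf)).and <| (primrec_isDatum (primrec_sd hf)).and <|
    (primrec_isMor (primrec_sc hf) (primrec_sd hf) (primrec_sh hf)).and
      (primrec_roomC (primrec_sc hf) (primrec_sd hf) (primrec_sh hf))

lemma primrec_good {f g : α → ℕ} (hf : Primrec f) (hg : Primrec g) :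
    PrimrecPred fun a => Good (f a) (g a) :=
  (primrec_valid (primrec_yy hg)).and <| (primrec_valid (primrec_zz hg)).and <|
    (Primrec.eq.comp (primrec_sc (primrec_yy hg)) (primrec_sc hf)).and <|
    (Primrec.eq.comp (primrec_sc (primrec_zz hg)) (primrec_sd (primrec_yy hg))).and <|
    (primrec_isMor (primrec_sd (primrec_yy hg)) (primrec_sd hf) (primrec_ma hg)).and
      (primrec_isMor (primrec_sd (primrec_zz hg)) (primrec_sd hf) (primrec_mb hg))

end

/-! ### decoding -/

/-- a trivial datum -/
def trivDatum : Datum where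
  V := Unit
  E := ⊥
  φ := (⊥ : Subgroup Unit).subtype
  φ_inj := Subtype.val_injective
  a := ()

open Classical in
/-- the datum with a given code -/
noncomputable def dat (c : ℕ) : Datum :=
  if h : IsDatum c then h.exists_dat.choose else trivDatum

lemma exists_eps {c : ℕ} (h : IsDatum c) : ∃ ε, Codes c (dat c) ε := by
  unfold dat
  rw [dif_pos h]
  exact h.exists_dat.choose_spec

lemma ker_le_of_isMor {c d h : ℕ} (hc : IsDatum c) (hd : IsDatum d) (hm : IsMor c d h) :
    (dat c).ker ≤ (dat d).ker := by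
  obtain ⟨ε, hε⟩ := exists_eps hc
  obtain ⟨ε', hε'⟩ := exists_eps hd
  obtain ⟨m, -⟩ := hm.exists_mor hε hε'
  exact m.ker_le

lemma Valid.exists_room {s : ℕ} (hs : Valid s) :
    ∃ m : Mor (dat (sc s)) (dat (sd s)), Room m := by
  obtain ⟨h1, h2, h3, h4⟩ := hs
  obtain ⟨ε, hε⟩ := exists_eps h1
  obtain ⟨ε', hε'⟩ := exists_eps h2
  obtain ⟨m, hm⟩ := h3.exists_mor hε hε'
  exact ⟨m, (roomC_iff hε hε' hm).1 h4⟩

lemma Valid.ker_le {s : ℕ} (hs : Valid s) : (dat (sc s)).ker ≤ (dat (sd s)).ker := by
  obtain ⟨m, -⟩ := hs.exists_room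
  exact m.ker_le

lemma exists_valid {c : ℕ} {δ δ' : Datum} {ε : δ.V → ℕ} (hε : Codes c δ ε) (m : Mor δ δ')
    (hm : Room m) {c' : ℕ} {ε' : δ'.V → ℕ} (hε' : Codes c' δ' ε') :
    ∃ s, Valid s ∧ sc s = c ∧ sd s = c' := by
  obtain ⟨h, hh⟩ := exists_cMor hε hε' m
  refine ⟨Nat.pair c (Nat.pair c' h), ?_, ?_, ?_⟩
  · simp only [Valid, sc, sd, sh, Nat.unpair_pair]
    exact ⟨hε.isDatum, hε'.isDatum, hh.isMor hε hε', (roomC_iff hε hε' hh).2 hm⟩
  · simp only [sc, Nat.unpair_pair]
  · simp only [sd, Nat.unpair_pair]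

lemma Valid.exists_good {s : ℕ} (hs : Valid s) : ∃ x, Good s x := by
  obtain ⟨h1, h2, h3, h4⟩ := hs
  obtain ⟨ε, hε⟩ := exists_eps h1
  obtain ⟨ε₁, hε₁⟩ := exists_eps h2
  obtain ⟨m, hm⟩ := h3.exists_mor hε hε₁
  have hr := (roomC_iff hε hε₁ hm).1 h4
  obtain ⟨δ₂, δ₃, m₂, m₂₁, m₃, m₃₁, hr2, hr3⟩ := exists_refine m hr
  obtain ⟨c₂, ε₂, hε₂⟩ := exists_code δ₂
  obtain ⟨c₃, ε₃, hε₃⟩ := exists_code δ₃
  obtain ⟨y, hy, hy1, hy2⟩ := exists_valid hε m₂ hr2 hε₂
  obtain ⟨z, hz, hz1, hz2⟩ := exists_valid hε₂ m₃ hr3 hε₃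
  obtain ⟨a, ha⟩ := exists_cMor hε₂ hε₁ m₂₁
  obtain ⟨b, hb⟩ := exists_cMor hε₃ hε₁ m₃₁
  refine ⟨Nat.pair y (Nat.pair z (Nat.pair a b)), ?_⟩
  simp only [Good, yy, zz, ma, mb, Nat.unpair_pair]
  rw [hy1, hy2, hz1, hz2]
  exact ⟨hy, hz, rfl, rfl, ha.isMor hε₂ hε₁, hb.isMor hε₃ hε₁⟩

/-! ### the search -/

lemma search_ex (s : ℕ) : ∃ x, Valid s → Good s x := by
  by_cases h : Valid s
  · obtain ⟨x, hx⟩ := h.exists_good
    exact ⟨x, fun _ => hx⟩
  · exact ⟨0, fun h' => absurd h' h⟩

open Classical in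
/-- the refinement found by search -/
noncomputable def fnd (s : ℕ) : ℕ := Nat.find (search_ex s)

open Classical in
lemma fnd_good {s : ℕ} (hs : Valid s) : Good s (fnd s) := Nat.find_spec (search_ex s) hs

open Classical in
lemma computable_fnd : Computable fnd :=
  Computable.find (P := fun s x => Valid s → Good s x)
    (PrimrecPred.computablePred
      (PrimrecPred.imp (primrec_valid Primrec.fst) (primrec_good Primrec.fst Primrec.snd)))
    search_ex

/-- instance number `k` -/
def inst (k : ℕ) : Inst := ((Encodable.decode k : Option Inst)).getD (0, [])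

lemma primrec_inst : Primrec inst :=
  Primrec.option_getD.comp (Primrec.decode) (Primrec.const _)

lemma inst_encode (I : Inst) : inst (Encodable.encode I) = I := by
  unfold inst
  rw [Encodable.encodek]
  rfl

open Classical in
/-- the state chosen according to the answer for instance `k` -/
noncomputable def mid (k s : ℕ) : ℕ :=
  if NE (sd (yy (fnd s))) (inst k) then yy (fnd s) else zz (fnd s)

/-- one stage -/
noncomputable def stage (k s : ℕ) : ℕ := zz (fnd (mid k s))

lemma computable_mid : Computable₂ mid := by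
  classical
  have h1 : PrimrecPred fun x : ℕ × ℕ => NE (sd (yy x.2)) (inst x.1) :=
    primrec_ne.comp (Primrec.pair (primrec_sd (primrec_yy Primrec.snd))
      (primrec_inst.comp Primrec.fst))
  have h2 : Computable fun x : ℕ × ℕ => if NE (sd (yy x.2)) (inst x.1) then yy x.2 else zz x.2 :=
    (Primrec.ite h1 (primrec_yy Primrec.snd) (primrec_zz Primrec.snd)).to_comp
  have h3 := h2.comp (Computable.pair Computable.fst (computable_fnd.comp Computable.snd) :
    Computable fun p : ℕ × ℕ => (p.1, fnd p.2))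
  have h4 : Computable fun p : ℕ × ℕ => mid p.1 p.2 := by
    refine h3.of_eq fun p => ?_
    simp only [mid]
  exact h4

lemma computable_stage : Computable₂ stage := by
  have h1 : Computable fun p : ℕ × ℕ => mid p.1 p.2 := computable_mid
  have h2 := computable_fnd.comp h1
  have h3 := (primrec_zz (Primrec.id (α := ℕ))).to_comp.comp h2
  have h4 : Computable fun p : ℕ × ℕ => stage p.1 p.2 := h3.of_eq fun p => rfl
  exact h4

/-- the sequence of states -/
noncomputable def sq (s₀ : ℕ) (k : ℕ) : ℕ := Nat.rec s₀ (fun k s => stage k s) k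

lemma computable_sq (s₀ : ℕ) : Computable (sq s₀) := by
  have h := Computable.nat_rec (f := fun k : ℕ => k) (g := fun _ : ℕ => s₀)
    (h := fun (_ : ℕ) (x : ℕ × ℕ) => stage x.1 x.2) Computable.id (Computable.const s₀)
    (computable_stage.comp (Computable.fst.comp Computable.snd)
      (Computable.snd.comp Computable.snd)).to₂
  exact h

/-! ### nestedness -/

/-- `s'` lies between the members of `s` -/
structure Refines (s s' : ℕ) : Prop where
  val : Valid s'
  up : (dat (sc s)).ker ≤ (dat (sc s')).ker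
  low : (dat (sd s')).ker ≤ (dat (sd s)).ker
  gen : (dat (sc s)).Gen → (dat (sc s')).Gen
  card : Nat.card (dat (sc s)).E ≤ Nat.card (dat (sc s')).E

lemma Refines.trans {s s' s'' : ℕ} (h : Refines s s') (h' : Refines s' s'') : Refines s s'' :=
  ⟨h'.val, h.up.trans h'.up, h'.low.trans h.low, fun hg => h'.gen (h.gen hg),
    h.card.trans h'.card⟩

lemma Room.card_lt {δ δ' : Datum} {m : Mor δ δ'} (hm : Room m) :
    Nat.card δ.E < Nat.card δ'.E := by
  classical
  obtain ⟨x, hx, hx2⟩ := hm.strict
  let f : δ.E → δ'.E := fun e => ⟨m.h e, m.hE e e.2⟩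
  have hf : Function.Injective f := by
    intro u v h
    exact Subtype.ext (hm.inj (congrArg Subtype.val h))
  have hf2 : ¬ Function.Surjective f := by
    intro hs
    obtain ⟨e, he⟩ := hs ⟨x, hx⟩
    exact hx2 e e.2 (congrArg Subtype.val he)
  rcases lt_or_eq_of_le (Nat.card_le_card_of_injective f hf) with h | h
  · exact h
  · exact absurd ((Nat.bijective_iff_injective_and_card f).2 ⟨hf, h⟩).2 hf2

lemma Good.refines_y {s x : ℕ} (hs : Valid s) (hx : Good s x) : Refines s (yy x) := by
  obtain ⟨h1, h2, h3, h4, h5, h6⟩ := hx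
  refine ⟨h1, ?_, ?_, ?_, ?_⟩
  · rw [h3]
  · exact ker_le_of_isMor h1.2.1 hs.2.1 h5
  · rw [h3]; exact id
  · rw [h3]

lemma Good.gen {s x : ℕ} (hx : Good s x) (hg : (dat (sc s)).Gen) :
    (dat (sd (yy x))).Gen := by
  obtain ⟨h1, h2, h3, h4, h5, h6⟩ := hx
  obtain ⟨m, hm⟩ := h1.exists_room
  rw [← h3] at hg
  exact hm.genr hg

lemma Good.card_lt {s x : ℕ} (hx : Good s x) :
    Nat.card (dat (sc s)).E < Nat.card (dat (sc (zz x))).E := by
  obtain ⟨h1, h2, h3, h4, h5, h6⟩ := hx
  obtain ⟨m, hm⟩ := h1.exists_room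
  have := hm.card_lt
  rw [h3] at this
  rw [h4]
  exact this

lemma Good.refines_z {s x : ℕ} (hs : Valid s) (hx : Good s x) : Refines s (zz x) := by
  have hx' := hx
  obtain ⟨h1, h2, h3, h4, h5, h6⟩ := hx
  refine ⟨h2, ?_, ?_, ?_, hx'.card_lt.le⟩
  · rw [h4, ← h3]
    exact h1.ker_le
  · exact ker_le_of_isMor h2.2.1 hs.2.1 h6
  · intro hg
    rw [h4]
    exact hx'.gen hg

lemma refines_mid (k : ℕ) {s : ℕ} (hs : Valid s) : Refines s (mid k s) := by
  unfold mid
  split_ifs
  · exact (fnd_good hs).refines_y hs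
  · exact (fnd_good hs).refines_z hs

lemma refines_stage (k : ℕ) {s : ℕ} (hs : Valid s) :
    Refines (mid k s) (stage k s) ∧
      Nat.card (dat (sc s)).E < Nat.card (dat (sc (stage k s))).E := by
  have h := refines_mid k hs
  have hg := fnd_good h.val
  exact ⟨hg.refines_z h.val, lt_of_le_of_lt h.card hg.card_lt⟩

/-- the decision made at stage `k` -/
def Ans (k s : ℕ) : Prop := NE (sd (yy (fnd s))) (inst k)

lemma computable_ans {α : Type} [Primcodable α] {f g : α → ℕ} (hf : Computable f)
    (hg : Computable g) : ComputablePred fun a => Ans (f a) (g a) := by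
  classical
  have h1 : PrimrecPred fun x : ℕ × ℕ => NE (sd (yy x.2)) (inst x.1) :=
    primrec_ne.comp (Primrec.pair (primrec_sd (primrec_yy Primrec.snd))
      (primrec_inst.comp Primrec.fst))
  have h2 := h1.decide.to_comp.comp (Computable.pair hf (computable_fnd.comp hg))
  exact ⟨inferInstance, h2⟩

/-- the group between all the members of the sequence -/
theorem exists_limit {s₀ : ℕ} (hs : Valid s₀) (hg : (dat (sc s₀)).Gen) :
    ∃ N : Subgroup F2, N.Normal ∧ ComputablePred (DomF N) ∧
      ∀ m : ℕ, ∃ (V : Type) (_ : Group V) (_ : Finite V) (f : V → F2),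
        (∀ u v, (f (u * v))⁻¹ * (f u * f v) ∈ N) ∧ (∀ v, f v ∈ N → v = 1) ∧
        m ≤ Nat.card V := by
  classical
  set S := sq s₀ with hS
  have hS0 : S 0 = s₀ := rfl
  have hS1 : ∀ k, S (k + 1) = stage k (S k) := fun _ => rfl
  have hval : ∀ k, Valid (S k) := by
    intro k
    induction k with
    | zero => exact hs
    | succ k ih => rw [hS1]; exact (refines_stage k ih).1.val
  have hmid : ∀ k, Refines (S k) (mid k (S k)) := fun k => refines_mid k (hval k)
  have hmid' : ∀ k, Refines (mid k (S k)) (S (k + 1)) := by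
    intro k
    rw [hS1]
    exact (refines_stage k (hval k)).1
  have hstep : ∀ k, Refines (S k) (S (k + 1)) := fun k => (hmid k).trans (hmid' k)
  have hup : Monotone fun k => (dat (sc (S k))).ker := monotone_nat_of_le_succ fun k => (hstep k).up
  have hlow : Antitone fun k => (dat (sd (S k))).ker :=
    antitone_nat_of_succ_le fun k => (hstep k).low
  have hgen : ∀ k, (dat (sc (S k))).Gen := by
    intro k
    induction k with
    | zero => exact hg
    | succ k ih => exact (hstep k).gen ih
  have hcard : ∀ k, k ≤ Nat.card (dat (sc (S k))).E := by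
    intro k
    induction k with
    | zero => exact Nat.zero_le _
    | succ k ih =>
      rw [hS1]
      exact Nat.succ_le_of_lt (lt_of_le_of_lt ih (refines_stage k (hval k)).2)
  let N : Subgroup F2 :=
    { carrier := {w | ∃ k, w ∈ (dat (sc (S k))).ker}
      mul_mem' := by
        rintro u v ⟨i, hi⟩ ⟨j, hj⟩
        exact ⟨max i j, mul_mem (hup (le_max_left i j) hi) (hup (le_max_right i j) hj)⟩
      one_mem' := ⟨0, one_mem _⟩
      inv_mem' := by
        rintro u ⟨i, hi⟩
        exact ⟨i, inv_mem hi⟩ }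
  have hN1 : ∀ k, (dat (sc (S k))).ker ≤ N := fun k w hw => ⟨k, hw⟩
  have hN2 : ∀ k, N ≤ (dat (sd (S k))).ker := by
    rintro k w ⟨j, hj⟩
    exact hlow (le_max_right j k) ((hval _).ker_le (hup (le_max_left j k) hj))
  have hNn : N.Normal := by
    constructor
    rintro n ⟨k, hk⟩ g
    exact ⟨k, Subgroup.Normal.conj_mem inferInstance n hk g⟩
  refine ⟨N, hNn, ?_, ?_⟩
  · -- the domino problem
    have hans : ∀ I : Inst, Ans (Encodable.encode I) (S (Encodable.encode I)) ↔ DomF N I := by
      intro I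
      set k := Encodable.encode I with hk
      have hgood := fnd_good (hval k)
      set x := fnd (S k) with hx
      have hD : IsDatum (sd (yy x)) := hgood.1.2.1
      obtain ⟨ε, hε⟩ := exists_eps hD
      have hne : NE (sd (yy x)) I ↔ DomF (dat (sd (yy x))).ker I :=
        ne_iff hε (hgood.gen (hgen k)) I
      have hA : Ans k (S k) ↔ NE (sd (yy x)) I := by
        unfold Ans
        rw [← hx, hk, inst_encode]
      rw [hA]
      constructor
      · intro h
        have h2 : mid k (S k) = yy x := by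
          unfold mid
          rw [← hx, if_pos]
          rw [hk, inst_encode]
          exact h
        have h3 : (dat (sd (S (k + 1)))).ker ≤ (dat (sd (yy x))).ker := by
          have := (hmid' k).low
          rwa [h2] at this
        exact (hne.1 h).mono ((hN2 (k + 1)).trans h3)
      · intro h
        by_contra hcon
        have h2 : mid k (S k) = zz x := by
          unfold mid
          rw [← hx, if_neg]
          rw [hk, inst_encode]
          exact hcon
        have h3 : (dat (sd (yy x))).ker ≤ (dat (sc (S (k + 1)))).ker := by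
          have := (hmid' k).up
          rw [h2, hgood.2.2.2.1] at this
          exact this
        exact hcon (hne.2 (h.mono (h3.trans (hN1 (k + 1)))))
    have hcomp : ComputablePred fun I : Inst => Ans (Encodable.encode I) (S (Encodable.encode I)) :=
      computable_ans Computable.encode ((computable_sq s₀).comp Computable.encode)
    exact hcomp.of_eq hans
  · -- large finite subgroups
    intro m
    obtain ⟨μ, hμ⟩ := (hval m).exists_room
    choose ω hω using hgen m
    refine ⟨(dat (sc (S m))).V, inferInstance, inferInstance, ω, ?_, ?_, ?_⟩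
    · intro u v
      apply hN1 m
      intro Y r
      rw [map_mul, map_inv, map_mul, hω, hω, hω, map_mul, inv_mul_cancel]
    · intro v hv
      have h1 := hN2 m hv
      obtain ⟨Y, r, hr⟩ := exists_faithful (dat (sd (S m)))
      have h2 := h1 Y r
      rw [← μ.pull_ρ r, hω] at h2
      have h3 : r.L (μ.h v) = r.L 1 := by
        rw [map_one]; exact h2
      have h4 := hr h3
      rw [← map_one μ.h] at h4
      exact hμ.inj h4
    · exact (hcard m).trans (Nat.card_le_card_of_injective _ Subtype.val_injective)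

end Pool.Agent.Lib.MP_018f72_lc
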