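import Pool.Agent.Lib.MP_018f72_lc.Seq

set_option autoImplicit false
set_option linter.unusedSectionVars false

/-!
# The initial state, and the limit group
-/

namespace Pool.Agent.Lib.MP_018f72_lc

lemma gen_of_codes {c : ℕ} {δ δ' : Datum} {ε : δ.V → ℕ} {ε' : δ'.V → ℕ} (hc : Codes c δ ε)
    (hc' : Codes c δ' ε') (hg : δ.Gen) : δ'.Gen := by
  obtain ⟨h, hh⟩ := exists_cMor hc hc
    (⟨MonoidHom.id _, fun _ h => h, fun _ => rfl, rfl⟩ : Mor δ δ)
  obtain ⟨m, hm⟩ := (hh.isMor hc hc).exists_mor hc hc'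
  intro v'
  obtain ⟨v, hv⟩ := (hc.rng _).1 (hc'.lt v')
  have h1 : m.h v = v' := by
    apply hc'.inj
    rw [← hm v, hh v]
    exact hv
  obtain ⟨w, hw⟩ := hg v
  refine ⟨w, fun Y r => ?_⟩
  rw [← m.pull_ρ r w, hw Y (m.pull r), ← h1]
  rfl

/-- the group of order two -/
abbrev C2 : Type := Multiplicative (ZMod 2)

/-- its generator -/
def g2 : C2 := Multiplicative.ofAdd 1

lemma c2_cases (v : C2) : v = 1 ∨ v = g2 := by
  revert v
  decide

lemma g2_ne : g2 ≠ 1 := by decide

/-- first datum -/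
def d0 : Datum where
  V := C2
  E := ⊥
  φ := (⊥ : Subgroup C2).subtype
  φ_inj := Subtype.val_injective
  a := g2

/-- second datum -/
def d1 : Datum where
  V := C2
  E := ⊤
  φ := (⊤ : Subgroup C2).subtype
  φ_inj := Subtype.val_injective
  a := g2

/-- the morphism -/
def m01 : Mor d0 d1 where
  h := MonoidHom.id C2
  hE _ _ := Subgroup.mem_top _
  hφ _ := rfl
  ha := rfl

lemma room01 : Room m01 where
  inj := fun _ _ h => h
  sub x _ := ⟨x, rfl⟩
  strict := by
    refine ⟨g2, Subgroup.mem_top _, ?_⟩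
    intro e he h
    have : e = 1 := Subgroup.mem_bot.1 he
    rw [this] at h
    exact g2_ne h.symm
  ne := ⟨g2, fun h => g2_ne (Subgroup.mem_bot.1 h)⟩
  gen := by
    rw [eq_top_iff]
    intro x _
    exact Subgroup.subset_closure (Or.inl ⟨x, rfl⟩)

lemma gen0 : d0.Gen := by
  intro v
  rcases c2_cases v with h | h
  · refine ⟨1, fun Y r => ?_⟩
    rw [map_one, h]
    exact (map_one r.L).symm
  · refine ⟨FreeGroup.of 0, fun Y r => ?_⟩
    rw [r.ρ_zero, h]
    rfl

/-- a normal subgroup of the free group of rank two whose quotient has a decidable domino problem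
and arbitrarily large finite subgroups -/
theorem exists_group : ∃ N : Subgroup F2, N.Normal ∧ ComputablePred (DomF N) ∧
      ∀ m : ℕ, ∃ (V : Type) (_ : Group V) (_ : Finite V) (f : V → F2),
        (∀ u v, (f (u * v))⁻¹ * (f u * f v) ∈ N) ∧ (∀ v, f v ∈ N → v = 1) ∧
        m ≤ Nat.card V := by
  obtain ⟨c, ε, hc⟩ := exists_code d0
  obtain ⟨c', ε', hc'⟩ := exists_code d1
  obtain ⟨s, hs, hs1, hs2⟩ := exists_valid hc m01 room01 hc'
  obtain ⟨ε₀, hε₀⟩ := exists_eps hs.1
  refine exists_limit hs ?_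
  subst hs1
  exact gen_of_codes hc hε₀ gen0

lemma free_torsion {H : Type} [Group H] [IsFreeGroup H] {h : H} {n : ℕ} (hn : n ≠ 0)
    (hh : h ^ n = 1) : h = 1 := by
  have h1 : (IsFreeGroup.toFreeGroup H h) ^ n = 1 ^ n := by
    rw [← map_pow, hh, map_one, one_pow]
  have h2 := pow_left_injective hn h1
  exact (map_eq_one_iff _ (MulEquiv.injective _)).1 h2

/-- a group with arbitrarily large finite subgroups has no free subgroup of finite index -/
lemma not_virtually_free (N : Subgroup F2) [N.Normal]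
    (hN : ∀ m : ℕ, ∃ (V : Type) (_ : Group V) (_ : Finite V) (f : V → F2),
        (∀ u v, (f (u * v))⁻¹ * (f u * f v) ∈ N) ∧ (∀ v, f v ∈ N → v = 1) ∧
        m ≤ Nat.card V) :
    ¬ ∃ H : Subgroup (F2 ⧸ N), H.FiniteIndex ∧ IsFreeGroup H := by
  rintro ⟨H, hH, hfree⟩
  obtain ⟨V, iV, hV, f, hf1, hf2, hf3⟩ := hN (H.index + 1)
  let F : V →* F2 ⧸ N := MonoidHom.mk' (fun v => QuotientGroup.mk (f v)) (by
    intro u v
    rw [← QuotientGroup.mk_mul]
    exact QuotientGroup.eq.2 (hf1 u v))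
  have hF : Function.Injective F := by
    rw [injective_iff_map_eq_one]
    intro v hv
    exact hf2 v ((QuotientGroup.eq_one_iff _).1 hv)
  have hninj : ¬ Function.Injective (fun v : V => (QuotientGroup.mk (F v) : (F2 ⧸ N) ⧸ H)) := by
    intro hinj
    have hfin : Finite ((F2 ⧸ N) ⧸ H) := Subgroup.finite_quotient_of_finiteIndex
    have := Nat.card_le_card_of_injective _ hinj
    have h2 : Nat.card ((F2 ⧸ N) ⧸ H) = H.index := rfl
    omega
  unfold Function.Injective at hninj
  push Not at hninj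
  obtain ⟨u, v, huv, hne⟩ := hninj
  have hmem : F (u⁻¹ * v) ∈ H := by
    rw [map_mul, map_inv]
    exact QuotientGroup.eq.1 huv
  have hpow : (⟨F (u⁻¹ * v), hmem⟩ : H) ^ Nat.card V = 1 := by
    apply Subtype.ext
    simp only [Subgroup.coe_pow, Subgroup.coe_one]
    rw [← map_pow, pow_card_eq_one', map_one]
  have h1 := free_torsion (Nat.card_pos (α := V)).ne' hpow
  have h2 : F (u⁻¹ * v) = 1 := congrArg Subtype.val h1
  rw [← map_one F] at h2
  have h3 := hF h2
  exact hne (inv_mul_eq_one.1 h3)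

end Pool.Agent.Lib.MP_018f72_lc
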