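import Pool.Agent.Lib.MP_018f72_lc.Config
import Pool.Agent.Lib.MP_018f72_lc.Arith

set_option autoImplicit false
set_option linter.unusedSectionVars false

/-!
# From forbidden patterns to nearest neighbour rules
-/

namespace Pool.Agent.Lib.MP_018f72_lc

/-- instances of the domino problem on two generators -/
abbrev Inst : Type := ℕ × List (List (List (Fin 2 × Bool) × ℕ))

/-- existence of a colouring, in terms of the free group -/
def DomF (N : Subgroup F2) (I : Inst) : Prop :=
  ∃ x : F2 → ℕ, (∀ w, x w < I.1) ∧ (∀ w, ∀ n ∈ N, x (w * n) = x w) ∧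
    ∀ w, ∀ P ∈ I.2, ∃ q ∈ P, x (w * FreeGroup.mk q.1) ≠ q.2

lemma DomF.mono {N N' : Subgroup F2} (h : N' ≤ N) {I : Inst} (hx : DomF N I) : DomF N' I := by
  obtain ⟨x, h1, h2, h3⟩ := hx
  exact ⟨x, h1, fun w n hn => h2 w n (h hn), h3⟩

lemma domF_iff (N : Subgroup F2) [N.Normal] (I : Inst) :
    (∃ x : F2 ⧸ N → Fin I.1, ∀ g, ∀ P ∈ I.2,
      ¬ (∀ q ∈ P, ((x (g * FreeGroup.lift (fun i => (QuotientGroup.mk (FreeGroup.of i) : F2 ⧸ N))
        (FreeGroup.mk q.1)) : Fin I.1) : ℕ) = q.2)) ↔ DomF N I := by
  have hl : ∀ u : F2, FreeGroup.lift (fun i => (QuotientGroup.mk (FreeGroup.of i) : F2 ⧸ N)) u =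
      QuotientGroup.mk u := by
    intro u
    have : FreeGroup.lift (fun i => (QuotientGroup.mk (FreeGroup.of i) : F2 ⧸ N)) =
        QuotientGroup.mk' N := by
      ext i
      simp
    rw [this]
    rfl
  constructor
  · rintro ⟨x, hx⟩
    refine ⟨fun w => (x (QuotientGroup.mk w) : ℕ), fun w => (x _).2, ?_, ?_⟩
    · intro w n hn
      have : (QuotientGroup.mk (w * n) : F2 ⧸ N) = QuotientGroup.mk w := by
        rw [QuotientGroup.mk_mul_of_mem w hn]
      simp only [this]
    · intro w P hP
      have := hx (QuotientGroup.mk w) P hP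
      push Not at this
      obtain ⟨q, hq, hq2⟩ := this
      refine ⟨q, hq, ?_⟩
      rw [hl] at hq2
      exact hq2
  · rintro ⟨x, h1, h2, h3⟩
    have hout : ∀ w : F2, x (QuotientGroup.mk w : F2 ⧸ N).out = x w := by
      intro w
      obtain ⟨n, hn⟩ := QuotientGroup.mk_out_eq_mul N w
      rw [hn, h2 w n n.2]
    refine ⟨fun g => ⟨x g.out, h1 _⟩, ?_⟩
    intro g P hP hcon
    induction g using QuotientGroup.induction_on with
    | H w =>
      obtain ⟨q, hq, hq2⟩ := h3 w P hP
      apply hq2
      have := hcon q hq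
      rw [hl] at this
      simp only at this
      rw [← this, ← QuotientGroup.mk_mul, hout]

/-! ### codes of words -/

/-- code of a word -/
def wcode : List (Fin 2 × Bool) → ℕ
  | [] => 0
  | (i, b) :: u => Nat.pair (Nat.pair i (if b then 1 else 0)) (wcode u) + 1

lemma wcode_inj : Function.Injective wcode := by
  intro u
  induction u with
  | nil =>
    intro v h
    cases v with
    | nil => rfl
    | cons p v => obtain ⟨i, b⟩ := p; simp [wcode] at h
  | cons p u ih =>
    intro v h
    obtain ⟨i, b⟩ := p
    cases v with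
    | nil => simp [wcode] at h
    | cons q v =>
      obtain ⟨j, b'⟩ := q
      simp only [wcode, add_left_inj, Nat.pair_eq_pair] at h
      obtain ⟨⟨h1, h2⟩, h3⟩ := h
      have e1 : i = j := Fin.ext h1
      have e2 : b = b' := by
        cases b <;> cases b' <;> simp at h2 <;> rfl
      rw [e1, e2, ih h3]

lemma wcode_lt (i : Fin 2) (b : Bool) (u : List (Fin 2 × Bool)) :
    wcode u < wcode ((i, b) :: u) := by
  simp only [wcode]
  exact Nat.lt_succ_of_le (Nat.right_le_pair _ _)

/-- consistency of labels of neighbours -/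
def Cons (σ B s l l' : ℕ) : Prop :=
  ∀ j < B,
    (Nat.pair (Nat.pair s 1) j + 1 < B → dig σ l (Nat.pair (Nat.pair s 1) j + 1) = dig σ l' j) ∧
    (Nat.pair (Nat.pair s 0) j + 1 < B → dig σ l' (Nat.pair (Nat.pair s 0) j + 1) = dig σ l j)

/-- no forbidden pattern is visible in the label -/
def Allowed (I : Inst) (l : ℕ) : Prop := ∀ P ∈ I.2, ∃ q ∈ P, dig I.1 l (wcode q.1) ≠ q.2

lemma mk_true (i : Fin 2) (u : List (Fin 2 × Bool)) :
    FreeGroup.mk ((i, true) :: u) = FreeGroup.of i * FreeGroup.mk u := by
  rw [FreeGroup.of, FreeGroup.mul_mk]; rfl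

lemma mk_false (i : Fin 2) (u : List (Fin 2 × Bool)) :
    FreeGroup.mk ((i, false) :: u) = (FreeGroup.of i)⁻¹ * FreeGroup.mk u := by
  rw [FreeGroup.of, FreeGroup.inv_mk, FreeGroup.mul_mk]; rfl

theorem domF_iff_conf (N : Subgroup F2) [N.Normal] (I : Inst) (B : ℕ)
    (hB : ∀ P ∈ I.2, ∀ q ∈ P, wcode q.1 < B) (hB0 : 0 < B) :
    DomF N I ↔ ∃ c : F2 → ℕ, IsConf N (fun l => l < I.1 ^ B ∧ Allowed I l)
      (Cons I.1 B 0) (Cons I.1 B 1) c := by
  classical
  constructor
  · rintro ⟨x, h1, h2, h3⟩
    have hσ : 0 < I.1 := lt_of_le_of_lt (Nat.zero_le _) (h1 1)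
    choose! D hD1 hD2 using fun (f : ℕ → ℕ) (hf : ∀ i < B, f i < I.1) => exists_dig B f hf
    let f : F2 → ℕ → ℕ := fun w j =>
      if h : ∃ u, wcode u = j then x (w * FreeGroup.mk h.choose) else 0
    have hf : ∀ w, ∀ i < B, f w i < I.1 := by
      intro w i _
      simp only [f]
      split_ifs
      · exact h1 _
      · exact hσ
    have hfw : ∀ w u, f w (wcode u) = x (w * FreeGroup.mk u) := by
      intro w u
      have h : ∃ v, wcode v = wcode u := ⟨u, rfl⟩
      simp only [f]
      rw [dif_pos h, wcode_inj h.choose_spec]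
    have hfj : ∀ w j, (¬ ∃ u, wcode u = j) → f w j = 0 := by
      intro w j h
      simp only [f]
      rw [dif_neg h]
    have hcons : ∀ (w : F2) (s : Fin 2),
        Cons I.1 B s (D (f w)) (D (f (w * FreeGroup.of s))) := by
      intro w s j hj
      constructor
      · intro hj2
        rw [hD2 _ (hf _) _ hj2, hD2 _ (hf _) _ hj]
        by_cases h : ∃ u, wcode u = j
        · obtain ⟨u, rfl⟩ := h
          have : Nat.pair (Nat.pair s 1) (wcode u) + 1 = wcode ((s, true) :: u) := by
            simp [wcode]
          rw [this, hfw, hfw, mk_true, mul_assoc]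
        · rw [hfj _ _ h, hfj]
          rintro ⟨v, hv⟩
          apply h
          cases v with
          | nil => simp [wcode] at hv
          | cons p v =>
            obtain ⟨i, b⟩ := p
            simp only [wcode, add_left_inj, Nat.pair_eq_pair] at hv
            exact ⟨v, hv.2⟩
      · intro hj2
        rw [hD2 _ (hf _) _ hj2, hD2 _ (hf _) _ hj]
        by_cases h : ∃ u, wcode u = j
        · obtain ⟨u, rfl⟩ := h
          have : Nat.pair (Nat.pair s 0) (wcode u) + 1 = wcode ((s, false) :: u) := by
            simp [wcode]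
          rw [this, hfw, hfw, mk_false, mul_assoc, mul_inv_cancel_left]
        · rw [hfj _ _ h, hfj]
          rintro ⟨v, hv⟩
          apply h
          cases v with
          | nil => simp [wcode] at hv
          | cons p v =>
            obtain ⟨i, b⟩ := p
            simp only [wcode, add_left_inj, Nat.pair_eq_pair] at hv
            exact ⟨v, hv.2⟩
    refine ⟨fun w => D (f w), ?_, ?_, ?_, ?_⟩
    · intro w n hn
      have : f (w * n) = f w := by
        funext j
        simp only [f]
        split_ifs with h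
        · have e1 : w * n * FreeGroup.mk h.choose = w * FreeGroup.mk h.choose *
              ((FreeGroup.mk h.choose)⁻¹ * n * ((FreeGroup.mk h.choose)⁻¹)⁻¹) := by
            group
          rw [e1]
          exact h2 _ _ (Subgroup.Normal.conj_mem inferInstance n hn _)
        · rfl
      rw [this]
    · intro w
      refine ⟨hD1 _ (hf w), ?_⟩
      intro P hP
      obtain ⟨q, hq, hq2⟩ := h3 w P hP
      refine ⟨q, hq, ?_⟩
      rw [hD2 _ (hf w) _ (hB P hP q hq), hfw]
      exact hq2
    · intro w
      exact hcons w 0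
    · intro w
      exact hcons w 1
  · rintro ⟨c, hc⟩
    have hσ : 0 < I.1 := by
      rcases Nat.eq_zero_or_pos I.1 with h | h
      · have := (hc.ok 1).1
        rw [h, zero_pow hB0.ne'] at this
        omega
      · exact h
    have hcons : ∀ (w : F2) (s : Fin 2), Cons I.1 B s (c w) (c (w * FreeGroup.of s)) := by
      intro w s
      fin_cases s
      · exact hc.ra w
      · exact hc.rt w
    have key : ∀ (u : List (Fin 2 × Bool)) (w : F2), wcode u < B →
        dig I.1 (c w) (wcode u) = dig I.1 (c (w * FreeGroup.mk u)) 0 := by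
      intro u
      induction u with
      | nil =>
        intro w _
        rw [← FreeGroup.one_eq_mk, mul_one]
        rfl
      | cons p u ih =>
        obtain ⟨i, b⟩ := p
        intro w hw
        have hu := (wcode_lt i b u).trans hw
        cases b with
        | true =>
          rw [mk_true, ← mul_assoc, ← ih (w * FreeGroup.of i) hu]
          have := (hcons w i _ hu).1
          have e : Nat.pair (Nat.pair i 1) (wcode u) + 1 = wcode ((i, true) :: u) := by
            simp [wcode]
          rw [e] at this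
          exact this hw
        | false =>
          rw [mk_false, ← mul_assoc, ← ih (w * (FreeGroup.of i)⁻¹) hu]
          have := (hcons (w * (FreeGroup.of i)⁻¹) i _ hu).2
          have e : Nat.pair (Nat.pair i 0) (wcode u) + 1 = wcode ((i, false) :: u) := by
            simp [wcode]
          rw [e, inv_mul_cancel_right] at this
          exact this hw
    refine ⟨fun w => dig I.1 (c w) 0, fun w => dig_lt hσ _ _, ?_, ?_⟩
    · intro w n hn
      simp only
      rw [hc.inv w n hn]
    · intro w P hP
      obtain ⟨q, hq, hq2⟩ := (hc.ok w).2 P hP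
      refine ⟨q, hq, ?_⟩
      rw [key q.1 w (hB P hP q hq)] at hq2
      exact hq2

end Pool.Agent.Lib.MP_018f72_lc
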